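import Pool.Agent.H92.Ramanujan

open PowerSeries

namespace Pool.Agent.H92

section abstractBol

variable {S A : Type*} [CommRing S] [CommRing A] [Algebra S A] (θ : Derivation S A A) (P Q a b t : A)

lemma deriv_pow_eq (ht : θ t = t * a) (m : ℕ) : θ (t ^ m) = m * t ^ m * a := by
  induction m with
  | zero => simp
  | succ n ih =>
    rw [pow_succ, Derivation.leibniz, ih, ht]
    simp only [smul_eq_mul]
    push_cast
    ring

lemma third_step (T K1 K2 K3 K4 M : A) (h1 : θ K1 = 0) (h2 : θ K2 = 0) (h3 : θ K3 = 0)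
    (h4 : θ K4 = 0) (hT : θ T = M * T * a) (ht : θ t = t * a) :
    θ (T * (K1 * a - K2 * (t * a) - 2 * P * (K3 - K4 * t) + P ^ 2 * b)) =
      M * T * a * (K1 * a - K2 * (t * a) - 2 * P * (K3 - K4 * t) + P ^ 2 * b) +
      T * (K1 * θ a - K2 * (t * a * a + t * θ a) - 2 * θ P * (K3 - K4 * t) +
        2 * P * K4 * (t * a) + 2 * P * θ P * b + P ^ 2 * θ b) := by
  have c5 : θ (2 : A) = 0 := by
    have := θ.map_natCast 2
    simpa using this
  have cP : θ (P ^ 2) = 2 * P * θ P := by
    rw [pow_two, Derivation.leibniz]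
    simp only [smul_eq_mul]
    ring
  simp only [Derivation.leibniz, map_add, map_sub, smul_eq_mul, h1, h2, h3, h4, hT, ht, c5, cP]
  ring

/-- The weight `-2` Bol identity in abstract form. -/
lemma bol_abstract (hab : a * b = 1 - 1728 * t) (hQb : Q * b = a) (hP : 12 * θ P = P ^ 2 - Q)
    (hb : 6 * θ b = -P * b + 1 - 6912 * t) (ha : 6 * θ a = P * a - 3 * Q + 2 * a ^ 2)
    (ht : θ t = t * a) (m : ℕ) :
    432 * θ (θ (θ (b * t ^ m))) = 2 * (Q * t ^ m * (216 * (m : A) ^ 3
      - 5184 * (2 * m + 1) * (72 * (m : A) ^ 2 + 72 * m + 41) * t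
      + 71663616 * (m + 1) * (9 * ((m : A) + 1) ^ 2 - 1) * t ^ 2)) := by
  have hT := deriv_pow_eq θ a t ht m
  set T := t ^ m with hTdef
  have haa : a ^ 2 = Q * (1 - 1728 * t) := by
    rw [← hab, ← hQb]; ring
  have h1 : 6 * θ (b * T) = T * ((6 * m + 1) - 1728 * (6 * m + 4) * t - P * b) := by
    rw [Derivation.leibniz, hT]
    simp only [smul_eq_mul]
    linear_combination T * hb + 6 * (m : A) * T * hab
  have h2 : 72 * θ (θ (b * T)) = T * ((72 * (m : A) ^ 2 + 12 * m + 1) * a
      - 20736 * (m + 1) * (6 * m + 4) * (t * a)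
      - 2 * P * ((6 * m + 1) - 1728 * (6 * m + 4) * t) + P ^ 2 * b) := by
    have e : θ (6 * θ (b * T)) = 6 * θ (θ (b * T)) := by
      rw [Derivation.leibniz]
      have : θ (6 : A) = 0 := by
        have := θ.map_natCast 6
        simpa using this
      rw [this]; simp
    have e2 : 72 * θ (θ (b * T)) = 12 * θ (6 * θ (b * T)) := by rw [e]; ring
    rw [e2, h1]
    have c1 : θ ((6 * (m : A) + 1)) = 0 := by
      have := θ.map_natCast (6 * m + 1)
      push_cast at this
      exact this
    have c2 : θ (1728 * (6 * (m : A) + 4)) = 0 := by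
      have := θ.map_natCast (1728 * (6 * m + 4))
      push_cast at this
      exact this
    simp only [Derivation.leibniz, map_sub, smul_eq_mul, c1, c2, hT, ht]
    linear_combination (-T * b) * hP - 2 * T * P * hb - 12 * (m : A) * T * P * hab + T * hQb
  have e3 : 432 * θ (θ (θ (b * T))) = 6 * θ (72 * θ (θ (b * T))) := by
    have e : θ (72 * θ (θ (b * T))) = 72 * θ (θ (θ (b * T))) := by
      rw [Derivation.leibniz]
      have : θ (72 : A) = 0 := by
        have := θ.map_natCast 72
        simpa using this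
      rw [this]; simp
    rw [e]; ring
  rw [e3, h2]
  have c1 : θ (72 * (m : A) ^ 2 + 12 * m + 1) = 0 := by
    have := θ.map_natCast (72 * m ^ 2 + 12 * m + 1)
    push_cast at this
    exact this
  have c2 : θ (20736 * ((m : A) + 1) * (6 * m + 4)) = 0 := by
    have := θ.map_natCast (20736 * (m + 1) * (6 * m + 4))
    push_cast at this
    exact this
  have c3 : θ ((6 * (m : A) + 1)) = 0 := by
    have := θ.map_natCast (6 * m + 1)
    push_cast at this
    exact this
  have c4 : θ (1728 * (6 * (m : A) + 4)) = 0 := by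
    have := θ.map_natCast (1728 * (6 * m + 4))
    push_cast at this
    exact this
  rw [third_step θ P a b t T _ _ _ _ (m : A) c1 c2 c3 c4 hT ht]
  linear_combination
    (T * (72 * (m : A) ^ 2 + 12 * m + 1) - T * (20736 * ((m : A) + 1) * (6 * m + 4)) * t) * ha
    - T * ((6 * (m : A) + 1) - 1728 * (6 * (m : A) + 4) * t) * hP
    + T * P * b * hP + T * P ^ 2 * hb + 6 * (m : A) * T * P ^ 2 * hab - T * P * hQb
    + T * (6 * (m : A) * (72 * (m : A) ^ 2 + 12 * m + 1)
      - 6 * (m : A) * (20736 * ((m : A) + 1) * (6 * m + 4)) * t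
      + 2 * (72 * (m : A) ^ 2 + 12 * m + 1)
      - (20736 * ((m : A) + 1) * (6 * m + 4)) * (8 * t)) * haa

end abstractBol

end Pool.Agent.H92
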