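import Pool.Agent.H92.Bol

open PowerSeries

noncomputable section

namespace Pool.Agent.H92

section abstract2

variable {S A : Type*} [CommRing S] [CommRing A] [Algebra S A] (θ : Derivation S A A) (P Q R6 y t : A)

lemma deriv_y (h1 : Q * y = 1) : θ y = - y ^ 2 * θ Q := by
  have h2 : θ (Q * y) = 0 := by rw [h1]; exact θ.map_one_eq_zero
  rw [Derivation.leibniz] at h2
  simp only [smul_eq_mul] at h2
  linear_combination y * h2 - θ y * h1

lemma a_rel (h1 : Q * y = 1) (r4 : 3 * θ Q = P * Q - R6) (r6 : 2 * θ R6 = P * R6 - Q ^ 2) :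
    6 * θ (R6 * y) = P * (R6 * y) - 3 * Q + 2 * (R6 * y) ^ 2 := by
  rw [Derivation.leibniz, deriv_y θ Q y h1]
  simp only [smul_eq_mul]
  linear_combination (3 * y) * r6 - (2 * R6 * y ^ 2) * r4 + (- 2 * R6 * y * P - 3 * Q) * h1

lemma ab_rel (h1 : Q * y = 1) (hR6sq : R6 ^ 2 = Q ^ 3 * (1 - 1728 * t)) :
    (R6 * y) * (R6 * y ^ 2) = 1 - 1728 * t := by
  have h3 : Q ^ 3 * y ^ 3 = 1 := by rw [← mul_pow, h1, one_pow]
  linear_combination (1 - 1728 * t) * h3 + y ^ 3 * hR6sq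

lemma b_rel (h1 : Q * y = 1) (r4 : 3 * θ Q = P * Q - R6) (r6 : 2 * θ R6 = P * R6 - Q ^ 2)
    (hR6sq : R6 ^ 2 = Q ^ 3 * (1 - 1728 * t)) :
    6 * θ (R6 * y ^ 2) = -P * (R6 * y ^ 2) + 1 - 6912 * t := by
  have e : R6 * y ^ 2 = (R6 * y) * y := by ring
  have e2 : 6 * θ (R6 * y ^ 2) = 6 * θ (R6 * y) * y + 6 * (R6 * y) * θ y := by
    rw [e, Derivation.leibniz]
    simp only [smul_eq_mul]; ring
  have hab := ab_rel Q R6 y t h1 hR6sq
  rw [e2, a_rel θ P Q R6 y h1 r4 r6, deriv_y θ Q y h1]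
  linear_combination (-2 * (R6 * y) * y ^ 2) * r4 + (-3 - 2 * (R6 * y) * y * P) * h1 + 4 * hab

lemma t_rel [IsDomain A] (h1728 : (1728 : A) ≠ 0) (h1 : Q * y = 1) (r4 : 3 * θ Q = P * Q - R6)
    (r6 : 2 * θ R6 = P * R6 - Q ^ 2)
    (ht : 1728 * t * Q ^ 3 = Q ^ 3 - R6 ^ 2) :
    θ t = t * (R6 * y) := by
  have hR6sq : R6 ^ 2 = Q ^ 3 * (1 - 1728 * t) := by linear_combination ht
  have hQ0 : Q ≠ 0 := by
    intro h
    rw [h] at h1
    simp at h1
  have h3 : θ (1728 * t * Q ^ 3) = θ (Q ^ 3 - R6 ^ 2) := by rw [ht]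
  have c1 : θ (1728 : A) = 0 := by
    have := θ.map_natCast 1728
    simpa using this
  have hQ3 : θ (Q ^ 3) = 3 * Q ^ 2 * θ Q := by
    rw [Derivation.leibniz_pow]; simp; ring
  have hR2 : θ (R6 ^ 2) = 2 * R6 * θ R6 := by
    rw [Derivation.leibniz_pow]; simp; ring
  rw [Derivation.leibniz, Derivation.leibniz, map_sub, hQ3, hR2, c1] at h3
  simp only [smul_eq_mul] at h3
  have h4 : 1728 * Q ^ 3 * (θ t - t * (R6 * y)) = 0 := by
    linear_combination h3 + (Q ^ 2 * (1 - 1728 * t)) * r4 - R6 * r6 + (- P) * hR6sq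
      - (1728 * t * Q ^ 2 * R6) * h1
  have h5 : (1728 : A) * Q ^ 3 ≠ 0 := mul_ne_zero h1728 (pow_ne_zero _ hQ0)
  exact sub_eq_zero.mp ((mul_eq_zero.mp h4).resolve_left h5)

lemma bol_abstract2 [IsDomain A] (h1728 : (1728 : A) ≠ 0) (h1 : Q * y = 1)
    (r2 : 12 * θ P = P ^ 2 - Q) (r4 : 3 * θ Q = P * Q - R6)
    (r6 : 2 * θ R6 = P * R6 - Q ^ 2)
    (ht : 1728 * t * Q ^ 3 = Q ^ 3 - R6 ^ 2) (m : ℕ) :
    216 * θ (θ (θ (R6 * y ^ 2 * t ^ m))) = Q * t ^ m * (216 * (m : A) ^ 3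
      - 5184 * (2 * m + 1) * (72 * (m : A) ^ 2 + 72 * m + 41) * t
      + 71663616 * (m + 1) * (9 * ((m : A) + 1) ^ 2 - 1) * t ^ 2) := by
  have hR6sq : R6 ^ 2 = Q ^ 3 * (1 - 1728 * t) := by linear_combination ht
  have hQb : Q * (R6 * y ^ 2) = R6 * y := by linear_combination (R6 * y) * h1
  have key := bol_abstract θ P Q (R6 * y) (R6 * y ^ 2) t (ab_rel Q R6 y t h1 hR6sq) hQb r2
    (b_rel θ P Q R6 y t h1 r4 r6 hR6sq) (a_rel θ P Q R6 y h1 r4 r6)
    (t_rel θ P Q R6 y t h1728 h1 r4 r6 ht) m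
  have h2 : (2 : A) ≠ 0 := by
    intro h
    apply h1728
    rw [show (1728 : A) = 2 * 864 by norm_num, h, zero_mul]
  apply mul_left_cancel₀ h2
  rw [← key]
  ring

end abstract2

variable (R : Type*) [CommRing R]

/-- the inverse of `E₄` -/
def E4i : PowerSeries R := PowerSeries.invOfUnit (E4s R) 1

lemma E4_mul_E4i : E4s R * E4i R = 1 := by
  apply PowerSeries.mul_invOfUnit
  simp [constCoeff_E4s]

variable [IsDomain R] [CharZero R] {R}

omit [IsDomain R] in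
lemma ps1728 : (1728 : PowerSeries R) ≠ 0 := by
  have : (1728 : PowerSeries R) = PowerSeries.C (1728 : R) := (map_ofNat PowerSeries.C 1728).symm
  rw [this]
  intro h
  have := (PowerSeries.C_injective (R := R)) (h.trans (map_zero _).symm)
  norm_num at this

theorem bol_series (t : PowerSeries R) (ht : 1728 * t * E4s R ^ 3 = E4s R ^ 3 - E6s R ^ 2) (m : ℕ) :
    216 * theta (theta (theta (E6s R * E4i R ^ 2 * t ^ m))) =
      E4s R * t ^ m * (216 * (m : PowerSeries R) ^ 3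
      - 5184 * (2 * (m : PowerSeries R) + 1) * (72 * (m : PowerSeries R) ^ 2
        + 72 * (m : PowerSeries R) + 41) * t
      + 71663616 * ((m : PowerSeries R) + 1) * (9 * ((m : PowerSeries R) + 1) ^ 2 - 1) * t ^ 2) := by
  have key := bol_abstract2 (A := PowerSeries R) (thetaD R) (E2s R) (E4s R) (E6s R) (E4i R) t ps1728
    (E4_mul_E4i R) (ramanujan_two R) (ramanujan_four R) (ramanujan_six R) ht m
  simpa only [thetaD_apply] using key

end Pool.Agent.H92
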