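import Pool.Agent.H92.Hasse

open Polynomial WeierstrassCurve

noncomputable section

namespace Pool.Agent.H92

variable {κ : Type*} [Field κ] [Fintype κ] {p : ℕ}

/-- the cubic `4x³ + b₂x² + 2b₄x + b₆` -/
def disc (W : WeierstrassCurve κ) (x : κ) : κ := 4 * x ^ 3 + W.b₂ * x ^ 2 + 2 * W.b₄ * x + W.b₆

lemma card_point (W : WeierstrassCurve κ) [W.IsElliptic] :
    Nat.card W.toAffine.Point =
      Nat.card {xy : κ × κ // W.toAffine.Equation xy.1 xy.2} + 1 := by
  have e := WeierstrassCurve.Affine.nonsingularPointEquiv W.toAffine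
  rw [Nat.card_congr e]
  have e2 : {xy : κ × κ // W.toAffine.Nonsingular xy.1 xy.2} ≃
      {xy : κ × κ // W.toAffine.Equation xy.1 xy.2} :=
    Equiv.subtypeEquivRight fun xy ↦ (WeierstrassCurve.Affine.equation_iff_nonsingular).symm
  rw [← Nat.card_congr e2]
  exact Finite.card_option

/-- fibres of the affine curve over the `x`-line -/
def fibEquiv (W : WeierstrassCurve κ) : {xy : κ × κ // W.toAffine.Equation xy.1 xy.2} ≃
    Σ x : κ, {y : κ // W.toAffine.Equation x y} where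
  toFun P := ⟨P.1.1, P.1.2, P.2⟩
  invFun P := ⟨(P.1, P.2.1), P.2.2⟩
  left_inv _ := rfl
  right_inv _ := rfl

omit [Fintype κ] in
lemma two_ne (h2 : ringChar κ ≠ 2) : (2 : κ) ≠ 0 :=
  Ring.two_ne_zero h2

/-- completing the square -/
def sqEquiv (h2 : ringChar κ ≠ 2) (W : WeierstrassCurve κ) (x : κ) :
    {y : κ // W.toAffine.Equation x y} ≃ {z : κ // z ^ 2 = disc W x} where
  toFun y := ⟨2 * y.1 + W.a₁ * x + W.a₃, by
    have := (WeierstrassCurve.Affine.equation_iff x y.1).mp y.2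
    simp only [disc, b₂, b₄, b₆]
    linear_combination 4 * this⟩
  invFun z := ⟨(z.1 - W.a₁ * x - W.a₃) / 2, by
    rw [WeierstrassCurve.Affine.equation_iff]
    have hz := z.2
    simp only [disc, b₂, b₄, b₆] at hz
    have := two_ne h2
    field_simp
    linear_combination hz⟩
  left_inv y := by
    have := two_ne h2
    ext
    simp only
    field_simp
    ring
  right_inv z := by
    have := two_ne h2
    ext
    simp only
    field_simp
    ring

lemma cast_card_affine (h2 : ringChar κ ≠ 2) (W : WeierstrassCurve κ) :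
    ((Nat.card {xy : κ × κ // W.toAffine.Equation xy.1 xy.2} : ℕ) : κ) =
      ∑ x : κ, disc W x ^ (Fintype.card κ / 2) := by
  classical
  rw [Nat.card_congr (fibEquiv W), Nat.card_sigma]
  push_cast
  have h : ∀ x : κ, ((Nat.card {y : κ // W.toAffine.Equation x y} : ℕ) : κ) =
      disc W x ^ (Fintype.card κ / 2) + 1 := by
    intro x
    rw [Nat.card_congr (sqEquiv h2 W x)]
    have h1 := quadraticChar_card_sqrts h2 (disc W x)
    have h3 : Nat.card {z : κ // z ^ 2 = disc W x} = {z : κ | z ^ 2 = disc W x}.toFinset.card := by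
      rw [Nat.card_eq_fintype_card, Set.toFinset_card]
      rfl
    rw [h3]
    have h4 := congrArg (Int.cast (R := κ)) h1
    push_cast at h4
    rw [h4, quadraticChar_eq_pow_of_char_ne_two' h2]
  simp only [h]
  rw [Finset.sum_add_distrib]
  simp [FiniteField.cast_card_eq_zero κ]

omit [Fintype κ] in
/-- the discriminant cubic in terms of the model attached to the `j`-invariant -/
lemma disc_scale (W : WeierstrassCurve κ) (c : κ) (hc : c * W.Δ = W.c₄ ^ 3) (h4 : W.c₄ ≠ 0)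
    (h6 : W.c₆ ≠ 0) (x : κ) :
    W.c₄ ^ 3 * 11664 * disc W x = -27 * W.c₆ * W.Δ *
      ((1728 - c) * (W.c₄ / W.c₆ * (12 * x + W.b₂)) ^ 3 + 3 * c * (W.c₄ / W.c₆ * (12 * x + W.b₂))
        + 2 * c) := by
  have hrel : 1728 * W.Δ = W.c₄ ^ 3 - W.c₆ ^ 2 := W.c_relation
  have e1 : W.Δ * (1728 - c) = - W.c₆ ^ 2 := by linear_combination hrel - hc
  have e2 : -27 * W.c₆ * W.Δ *
      ((1728 - c) * (W.c₄ / W.c₆ * (12 * x + W.b₂)) ^ 3 + 3 * c * (W.c₄ / W.c₆ * (12 * x + W.b₂))
        + 2 * c) =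
      -27 * (W.Δ * (1728 - c)) * W.c₄ ^ 3 * (12 * x + W.b₂) ^ 3 / W.c₆ ^ 2
      - 81 * (c * W.Δ) * W.c₄ * (12 * x + W.b₂) - 54 * W.c₆ * (c * W.Δ) := by
    field_simp
    ring
  rw [e2, e1, hc]
  have e3 : -27 * (-W.c₆ ^ 2) * W.c₄ ^ 3 * (12 * x + W.b₂) ^ 3 / W.c₆ ^ 2 =
      27 * W.c₄ ^ 3 * (12 * x + W.b₂) ^ 3 := by
    field_simp
  rw [e3]
  simp only [disc, WeierstrassCurve.c₄, WeierstrassCurve.c₆]
  ring

lemma cast_affine_zero (hcard : Fintype.card κ = p) (W : WeierstrassCurve κ) [W.IsElliptic]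
    (h : (p : ℤ) ∣ (p : ℤ) + 1 - Nat.card W.toAffine.Point) :
    ((Nat.card {xy : κ × κ // W.toAffine.Equation xy.1 xy.2} : ℕ) : κ) = 0 := by
  obtain ⟨k, hk⟩ := h
  have h1 := congrArg (Int.cast (R := κ)) hk
  rw [card_point] at h1
  push_cast at h1
  rw [cast_p hcard] at h1
  linear_combination -h1

theorem SS_eval_zero {n : ℕ} (hp : p.Prime) [CharP κ p] (hcard : Fintype.card κ = p)
    (hn : p = 2 * n + 1) (h5 : 5 ≤ p) (W : WeierstrassCurve κ) [W.IsElliptic]
    (h : (p : ℤ) ∣ (p : ℤ) + 1 - Nat.card W.toAffine.Point)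
    (c : κ) (hc : c * W.Δ = W.c₄ ^ 3) (hc0 : c ≠ 0) (hc1 : c ≠ 1728) :
    (SS κ n).eval c = 0 := by
  have h2 : ringChar κ ≠ 2 := by
    rw [ringChar.eq κ p]; omega
  have h0 := cast_affine_zero hcard W h
  rw [cast_card_affine h2 W, hcard, show p / 2 = n by omega] at h0
  have hΔ : W.Δ ≠ 0 := W.coe_Δ' ▸ W.Δ'.ne_zero
  have h4 : W.c₄ ≠ 0 := by
    intro h4
    rw [h4] at hc
    simp [hΔ, hc0] at hc
  have hrel : 1728 * W.Δ = W.c₄ ^ 3 - W.c₆ ^ 2 := W.c_relation
  have h6 : W.c₆ ≠ 0 := by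
    intro h6
    rw [h6] at hrel
    have : (c - 1728) * W.Δ = 0 := by linear_combination hc - hrel
    rcases mul_eq_zero.mp this with h | h
    · exact hc1 (sub_eq_zero.mp h)
    · exact hΔ h
  have hcast : ∀ d : ℕ, 0 < d → Nat.Coprime d p → (d : κ) ≠ 0 := by
    intro d hd hcop h
    rw [CharP.cast_eq_zero_iff κ p] at h
    have := Nat.eq_one_of_dvd_coprimes hcop h dvd_rfl
    omega
  have hp2 : (2 : κ) ≠ 0 := two_ne h2
  have hp3 : (3 : κ) ≠ 0 := by
    have := hcast 3 (by norm_num) ((Nat.coprime_primes Nat.prime_three hp).mpr (by omega))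
    simpa using this
  set s : κ := W.c₄ / W.c₆ * 12 with hs
  have h12 : (12 : κ) ≠ 0 := by
    rw [show (12 : κ) = 2 ^ 2 * 3 by norm_num]
    exact mul_ne_zero (pow_ne_zero _ hp2) hp3
  have hs0 : s ≠ 0 := mul_ne_zero (div_ne_zero h4 h6) h12
  clear_value s
  set e : κ ≃ κ :=
    { toFun := fun x ↦ s * x + W.c₄ / W.c₆ * W.b₂
      invFun := fun y ↦ (y - W.c₄ / W.c₆ * W.b₂) / s
      left_inv := fun x ↦ by simp only; field_simp; ring
      right_inv := fun x ↦ by simp only; field_simp; ring } with he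
  have hex : ∀ x, e x = W.c₄ / W.c₆ * (12 * x + W.b₂) := by
    intro x
    simp only [he, hs, Equiv.coe_fn_mk]
    ring
  have hpow : ∀ x : κ, (W.c₄ ^ 3 * 11664) ^ n * disc W x ^ n = (-27 * W.c₆ * W.Δ) ^ n *
      ((1728 - c) * (e x) ^ 3 + 3 * c * (e x) + 2 * c) ^ n := by
    intro x
    rw [← mul_pow, ← mul_pow, disc_scale W c hc h4 h6 x, hex]
  have hsum : (W.c₄ ^ 3 * 11664) ^ n * ∑ x : κ, disc W x ^ n = (-27 * W.c₆ * W.Δ) ^ n *
      ∑ x : κ, ((1728 - c) * x ^ 3 + 3 * c * x + 2 * c) ^ n := by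
    rw [Finset.mul_sum]
    simp only [hpow]
    rw [← Finset.mul_sum]
    congr 1
    exact e.sum_comp (fun x ↦ ((1728 - c) * x ^ 3 + 3 * c * x + 2 * c) ^ n)
  rw [h0, mul_zero] at hsum
  rw [eval_SS]
  have h27 : (-27 * W.c₆ * W.Δ) ^ n ≠ 0 := by
    refine pow_ne_zero _ (mul_ne_zero (mul_ne_zero ?_ h6) hΔ)
    rw [neg_ne_zero, show (27 : κ) = 3 ^ 3 by norm_num]
    exact pow_ne_zero _ hp3
  exact (mul_eq_zero.mp hsum.symm).resolve_left h27

/-- at `p = 3`, a nonzero `j`-invariant is ordinary -/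
theorem ordinary_three (hcard : Fintype.card κ = 3) (W : WeierstrassCurve κ) [W.IsElliptic]
    (h : ((3 : ℕ) : ℤ) ∣ ((3 : ℕ) : ℤ) + 1 - Nat.card W.toAffine.Point) : W.c₄ = 0 := by
  have : Fact (Nat.Prime 3) := ⟨Nat.prime_three⟩
  have : CharP κ 3 := charP_of_card_eq_prime hcard
  have h2 : ringChar κ ≠ 2 := by
    rw [ringChar.eq κ 3]; norm_num
  have h0 := cast_affine_zero hcard W h
  rw [cast_card_affine h2 W, hcard] at h0
  have h3 : (3 : κ) = 0 := by
    have := cast_p hcard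
    simpa using this
  norm_num at h0
  simp only [disc, Finset.sum_add_distrib, ← Finset.mul_sum] at h0
  have s1 : ∑ x : κ, x ^ 3 = 0 := by
    have : ∀ x : κ, x ^ 3 = x ^ 1 := by
      intro x
      have := FiniteField.pow_card x
      rw [hcard] at this
      rw [this, pow_one]
    simp only [this]
    exact FiniteField.sum_pow_lt_card_sub_one κ 1 (by rw [hcard]; norm_num)
  have s2 : ∑ x : κ, x = 0 := by
    have := FiniteField.sum_pow_lt_card_sub_one κ 1 (by rw [hcard]; norm_num)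
    simpa using this
  have s3 : ∑ x : κ, W.b₆ = 0 := by
    rw [Finset.sum_const, Finset.card_univ, hcard]
    simp [h3]
  have s4 : ∑ x : κ, x ^ 2 = 2 := by
    classical
    have h5 : ∀ x : κ, x ^ 2 = if x = 0 then 0 else 1 := by
      intro x
      split_ifs with hx
      · rw [hx]; norm_num
      · have := FiniteField.pow_card_sub_one_eq_one x hx
        rw [hcard] at this
        simpa using this
    simp only [h5]
    rw [Finset.sum_ite]
    simp only [Finset.sum_const_zero, zero_add, Finset.sum_const]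
    have : (Finset.univ.filter fun x : κ ↦ ¬ x = 0).card = 2 := by
      have e : (Finset.univ.filter fun x : κ ↦ ¬ x = 0) = Finset.univ.erase 0 := by
        ext; simp
      rw [e, Finset.card_erase_of_mem (Finset.mem_univ _), Finset.card_univ, hcard]
    rw [this]
    simp
  have s2' : ∑ x : κ, 2 * W.b₄ * x = 0 := by rw [← Finset.mul_sum, s2, mul_zero]
  rw [s1, s2', s3, s4] at h0
  have hb : W.b₂ = 0 := by
    have : W.b₂ * 2 = 0 := by linear_combination h0
    exact (mul_eq_zero.mp this).resolve_right (two_ne h2)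
  rw [WeierstrassCurve.c₄, hb]
  linear_combination (-8 * W.b₄) * h3

lemma zmod_two_eq_one : ∀ z : ZMod 2, z ≠ 0 → z = 1 := by decide

lemma odd_count_two : ∀ a₂ a₃ a₄ a₆ : ZMod 2,
    Odd (Finset.univ.filter fun uv : ZMod 2 × ZMod 2 ↦ uv.2 ^ 2 + 1 * uv.1 * uv.2 + a₃ * uv.2 =
      uv.1 ^ 3 + a₂ * uv.1 ^ 2 + a₄ * uv.1 + a₆).card := by
  decide

/-- at `p = 2`, a nonzero `j`-invariant is ordinary -/
theorem ordinary_two (hcard : Fintype.card κ = 2) (W : WeierstrassCurve κ) [W.IsElliptic]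
    (h : ((2 : ℕ) : ℤ) ∣ ((2 : ℕ) : ℤ) + 1 - Nat.card W.toAffine.Point) : W.c₄ = 0 := by
  have : Fact (Nat.Prime 2) := ⟨Nat.prime_two⟩
  have : CharP κ 2 := charP_of_card_eq_prime hcard
  by_contra h4
  have h2 : (2 : κ) = 0 := by
    have := cast_p hcard
    simpa using this
  have ha1 : W.a₁ ≠ 0 := by
    intro h1
    apply h4
    rw [WeierstrassCurve.c₄, WeierstrassCurve.b₂, h1]
    linear_combination (8 * W.a₂ ^ 2 - 12 * W.b₄) * h2
  let e : κ ≃+* ZMod 2 := (ZMod.ringEquivOfPrime κ Nat.prime_two hcard).symm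
  have he1 : e W.a₁ = 1 := by
    have h1 : e W.a₁ ≠ 0 := by
      rw [Ne, map_eq_zero_iff e e.injective]; exact ha1
    exact zmod_two_eq_one _ h1
  have hN : Nat.card {xy : κ × κ // W.toAffine.Equation xy.1 xy.2} =
      (Finset.univ.filter fun uv : ZMod 2 × ZMod 2 ↦
        uv.2 ^ 2 + 1 * uv.1 * uv.2 + e W.a₃ * uv.2 =
        uv.1 ^ 3 + e W.a₂ * uv.1 ^ 2 + e W.a₄ * uv.1 + e W.a₆).card := by
    rw [← Fintype.card_subtype, ← Nat.card_eq_fintype_card]
    refine Nat.card_congr (Equiv.subtypeEquiv (Equiv.prodCongr e.toEquiv e.toEquiv) fun xy ↦ ?_)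
    rw [WeierstrassCurve.Affine.equation_iff]
    simp only [Equiv.prodCongr_apply, RingEquiv.toEquiv_eq_coe, Prod.map_fst, Prod.map_snd,
      EquivLike.coe_coe]
    rw [← he1]
    constructor
    · intro h
      have := congrArg e h
      simpa using this
    · intro h
      apply e.injective
      simpa using h
  rw [card_point, hN] at h
  obtain ⟨k, hk⟩ := odd_count_two (e W.a₂) (e W.a₃) (e W.a₄) (e W.a₆)
  rw [hk] at h
  push_cast at h
  omega

end Pool.Agent.H92
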