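import Pool.Agent.H92.HasQ

open UpperHalfPlane hiding I
open Complex Filter Topology ModularForm EisensteinSeries Derivative
open scoped MatrixGroups ModularForm Manifold ArithmeticFunction.sigma

noncomputable section

namespace Pool.Agent.H92

/-- `E₂ = 1 - 24 ∑ σ₁(n) qⁿ` over any commutative ring. -/
def E2s (R : Type*) [CommRing R] : PowerSeries R :=
  1 - 24 * PowerSeries.mk fun n ↦ ((σ 1 n : ℕ) : R)

/-- `E₄ = 1 + 240 ∑ σ₃(n) qⁿ` over any commutative ring. -/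
def E4s (R : Type*) [CommRing R] : PowerSeries R :=
  1 + 240 * PowerSeries.mk fun n ↦ ((σ 3 n : ℕ) : R)

/-- `E₆ = 1 - 504 ∑ σ₅(n) qⁿ` over any commutative ring. -/
def E6s (R : Type*) [CommRing R] : PowerSeries R :=
  1 - 504 * PowerSeries.mk fun n ↦ ((σ 5 n : ℕ) : R)

lemma ofNat_mul_mk {R : Type*} [CommRing R] (k : ℕ) (f : ℕ → R) :
    (k : PowerSeries R) * PowerSeries.mk f = PowerSeries.mk fun n ↦ (k : R) * f n := by
  ext n
  rw [← map_natCast (PowerSeries.C (R := R)), PowerSeries.coeff_C_mul]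
  simp

lemma coeff_E2s (R : Type*) [CommRing R] (n : ℕ) :
    PowerSeries.coeff n (E2s R) = if n = 0 then 1 else -24 * ((σ 1 n : ℕ) : R) := by
  have h := ofNat_mul_mk (R := R) 24 fun n ↦ ((σ 1 n : ℕ) : R)
  rw [E2s, show (24 : PowerSeries R) = ((24 : ℕ) : PowerSeries R) by norm_num, h]
  rcases eq_or_ne n 0 with rfl | hn
  · simp
  · simp [PowerSeries.coeff_one, hn]

lemma coeff_E4s (R : Type*) [CommRing R] (n : ℕ) :
    PowerSeries.coeff n (E4s R) = if n = 0 then 1 else 240 * ((σ 3 n : ℕ) : R) := by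
  have h := ofNat_mul_mk (R := R) 240 fun n ↦ ((σ 3 n : ℕ) : R)
  rw [E4s, show (240 : PowerSeries R) = ((240 : ℕ) : PowerSeries R) by norm_num, h]
  rcases eq_or_ne n 0 with rfl | hn
  · simp
  · simp [PowerSeries.coeff_one, hn]

lemma coeff_E6s (R : Type*) [CommRing R] (n : ℕ) :
    PowerSeries.coeff n (E6s R) = if n = 0 then 1 else -504 * ((σ 5 n : ℕ) : R) := by
  have h := ofNat_mul_mk (R := R) 504 fun n ↦ ((σ 5 n : ℕ) : R)
  rw [E6s, show (504 : PowerSeries R) = ((504 : ℕ) : PowerSeries R) by norm_num, h]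
  rcases eq_or_ne n 0 with rfl | hn
  · simp
  · simp [PowerSeries.coeff_one, hn]

lemma hasQ_mf {k : ℤ} (f : ModularForm 𝒮ℒ k) : HasQ f (qExpansion 1 f) := by
  intro τ
  simpa [qq] using ModularForm.hasSum_qExpansion f one_pos one_mem_strictPeriods_SL τ

lemma qExpansion_eq_of_hasQ {k : ℤ} (f : ModularForm 𝒮ℒ k) {p : PowerSeries ℂ} (h : HasQ f p) :
    qExpansion 1 f = p := by
  ext m
  refine (ModularFormClass.qExpansion_coeff_unique one_pos one_mem_strictPeriods_SL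
    (c := fun m ↦ PowerSeries.coeff m p) (f := f) (fun τ ↦ ?_) m).symm
  simpa [qq] using h τ

lemma hasQ_E2 : HasQ E2 (E2s ℂ) := by
  intro τ
  have := hasSum_qExpansion_E2 (z := τ)
  simpa [coeff_E2s, qq_eq] using this

lemma qExpansion_E4 : qExpansion 1 (E₄ : ModularForm 𝒮ℒ 4) = E4s ℂ := by
  ext m
  rw [E_qExpansion_coeff _ ⟨2, rfl⟩, coeff_E4s]
  rcases eq_or_ne m 0 with rfl | hm
  · simp
  · norm_num [hm, show bernoulli 4 = -1 / 30 by decide +kernel]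

lemma qExpansion_E6 : qExpansion 1 (E₆ : ModularForm 𝒮ℒ 6) = E6s ℂ := by
  ext m
  rw [E_qExpansion_coeff _ ⟨3, rfl⟩, coeff_E6s]
  rcases eq_or_ne m 0 with rfl | hm
  · simp
  · norm_num [hm, show bernoulli 6 = 1 / 42 by decide +kernel]

lemma hasQ_E4 : HasQ (E₄ : ModularForm 𝒮ℒ 4) (E4s ℂ) := qExpansion_E4 ▸ hasQ_mf _

lemma hasQ_E6 : HasQ (E₆ : ModularForm 𝒮ℒ 6) (E6s ℂ) := qExpansion_E6 ▸ hasQ_mf _

/-- build a level one modular form from slash invariance and boundedness -/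
def mkMF {k : ℤ} (f : ℍ → ℂ) (hf : MDiff f) (hs : ∀ γ : SL(2, ℤ), f ∣[k] γ = f)
    (hb : IsBoundedAtImInfty f) : ModularForm 𝒮ℒ k where
  toFun := f
  slash_action_eq' := fun _ ⟨γ, hγ⟩ ↦ hγ ▸ hs γ
  holo' := hf
  bdd_at_cusps' {c} hc := by
    rw [OnePoint.isBoundedAt_iff_forall_SL2Z hc]
    intro γ _
    rw [hs γ]
    exact hb

lemma slash_inv {k : ℤ} (f : ModularForm 𝒮ℒ k) (γ : SL(2, ℤ)) : (f : ℍ → ℂ) ∣[k] γ = f :=
  f.slash_action_eq' _ ⟨γ, rfl⟩

lemma hasQ_serre {k : ℕ} {f : ℍ → ℂ} {p : PowerSeries ℂ} (hf : HasQ f p) :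
    HasQ (serreDerivative (k : ℂ) f) (theta p - ((k : ℂ) / 12) • (E2s ℂ * p)) := by
  have h := hf.deriv.sub ((hasQ_E2.mul hf).smul ((k : ℂ) / 12))
  convert! h using 1
  ext z
  simp [serreDerivative]
  ring

/-- Serre derivative of a level one form -/
def serreMF {k : ℕ} (f : ModularForm 𝒮ℒ (k : ℤ)) : ModularForm 𝒮ℒ ((k : ℤ) + 2) :=
  mkMF (serreDerivative (k : ℂ) f) (serreDerivative_mdifferentiable _ f.holo')
    (fun γ ↦ serreDerivative_slash_invariant (k := (k : ℤ)) f.holo' (slash_inv f γ))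
    (hasQ_serre (hasQ_mf f)).bdd

end Pool.Agent.H92
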