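import Mathlib

open UpperHalfPlane hiding I
open Complex Filter Topology
open scoped MatrixGroups ModularForm Manifold

noncomputable section

namespace Pool.Agent.H92

/-- `e^{2πiτ}` -/
def qq (z : ℂ) : ℂ := Function.Periodic.qParam (1 : ℝ) z

lemma qq_eq (z : ℂ) : qq z = exp (2 * Real.pi * I * z) := by
  simp [qq, Function.Periodic.qParam]

/-- `f` is everywhere the sum of the power series `p` evaluated at `e^{2πiτ}` -/
def HasQ (f : ℍ → ℂ) (p : PowerSeries ℂ) : Prop :=
  ∀ τ : ℍ, HasSum (fun m : ℕ ↦ PowerSeries.coeff m p * qq τ ^ m) (f τ)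

lemma HasQ.add {f g : ℍ → ℂ} {p r : PowerSeries ℂ} (hf : HasQ f p) (hg : HasQ g r) :
    HasQ (f + g) (p + r) := by
  intro τ
  have := (hf τ).add (hg τ)
  simpa [add_mul] using this

lemma HasQ.smul {f : ℍ → ℂ} {p : PowerSeries ℂ} (c : ℂ) (hf : HasQ f p) :
    HasQ (c • f) (c • p) := by
  intro τ
  have := (hf τ).mul_left c
  simpa [mul_assoc] using this

lemma HasQ.sub {f g : ℍ → ℂ} {p r : PowerSeries ℂ} (hf : HasQ f p) (hg : HasQ g r) :
    HasQ (f - g) (p - r) := by
  intro τ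
  have := (hf τ).sub (hg τ)
  simpa [sub_mul] using this

lemma HasQ.mul {f g : ℍ → ℂ} {p r : PowerSeries ℂ} (hf : HasQ f p) (hg : HasQ g r) :
    HasQ (f * g) (p * r) := by
  intro τ
  have h1 := (hf τ).summable.norm
  have h2 := (hg τ).summable.norm
  have h3 := (summable_norm_sum_mul_antidiagonal_of_summable_norm h1 h2)
  have h4 := tsum_mul_tsum_eq_tsum_sum_antidiagonal_of_summable_norm h1 h2
  have h5 : ∀ n : ℕ, ∑ kl ∈ Finset.HasAntidiagonal.antidiagonal n, (PowerSeries.coeff kl.1 p * qq τ ^ kl.1) *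
      (PowerSeries.coeff kl.2 r * qq τ ^ kl.2) = PowerSeries.coeff n (p * r) * qq τ ^ n := by
    intro n
    rw [PowerSeries.coeff_mul, Finset.sum_mul]
    refine Finset.sum_congr rfl fun kl hkl ↦ ?_
    rw [← Finset.HasAntidiagonal.mem_antidiagonal.mp hkl, pow_add]
    ring
  simp only [h5] at h3 h4
  rw [(hf τ).tsum_eq, (hg τ).tsum_eq] at h4
  rw [Pi.mul_apply, h4]
  exact h3.of_norm.hasSum

lemma norm_qq_lt_one (τ : ℍ) : ‖qq τ‖ < 1 :=
  Function.Periodic.norm_qParam_lt_one one_pos τ.im_pos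

lemma HasQ.bdd {f : ℍ → ℂ} {p : PowerSeries ℂ} (hf : HasQ f p) : IsBoundedAtImInfty f := by
  refine isBoundedAtImInfty_of_hasSum_qExpansion (h := 1) (c := fun m ↦ PowerSeries.coeff m p)
    one_pos fun τ ↦ ?_
  simpa [qq] using hf τ

/-- the operator `q d/dq` on power series -/
def theta {R : Type*} [CommSemiring R] (p : PowerSeries R) : PowerSeries R :=
  PowerSeries.mk fun n ↦ (n : R) * PowerSeries.coeff n p

@[simp] lemma coeff_theta {R : Type*} [CommSemiring R] (p : PowerSeries R) (n : ℕ) :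
    PowerSeries.coeff n (theta p) = (n : R) * PowerSeries.coeff n p := by
  simp [theta]

open Derivative in
lemma HasQ.deriv {f : ℍ → ℂ} {p : PowerSeries ℂ} (hf : HasQ f p) :
    HasQ (normalizedDerivOfComplex f) (theta p) := by
  intro τ
  set U : Set ℂ := {z | τ.im / 2 < z.im} with hU
  have hUo : IsOpen U := isOpen_lt continuous_const Complex.continuous_im
  have hτU : (τ : ℂ) ∈ U := by
    have := τ.im_pos
    simp only [hU, Set.mem_ofPred_eq, coe_im]
    linarith
  let τ' : ℍ := ⟨(τ.im / 2 : ℝ) * I, by simpa using τ.im_pos⟩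
  have hsum := (hf τ').summable.norm
  let F : ℕ → ℂ → ℂ := fun m z ↦ PowerSeries.coeff m p * exp (2 * Real.pi * I * z) ^ m
  have hFd : ∀ i, DifferentiableOn ℂ (F i) U := by
    intro i
    have : Differentiable ℂ (F i) := by
      intro z
      simp only [F]
      fun_prop
    exact this.differentiableOn
  have hle : ∀ (i : ℕ) (w : ℂ), w ∈ U → ‖F i w‖ ≤ ‖PowerSeries.coeff i p * qq τ' ^ i‖ := by
    intro i w hw
    simp only [F, norm_mul, norm_pow]
    have h1 : ‖exp (2 * Real.pi * I * w)‖ ≤ ‖qq τ'‖ := by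
      rw [qq_eq, norm_exp, norm_exp]
      apply Real.exp_le_exp.mpr
      have hw' : τ.im / 2 < w.im := hw
      have e1 : (2 * (Real.pi : ℂ) * I * w).re = - (2 * Real.pi * w.im) := by
        simp
      have e2 : (2 * (Real.pi : ℂ) * I * (τ' : ℂ)).re = - (2 * Real.pi * (τ.im / 2)) := by
        simp [τ']
      rw [e1, e2]
      have := Real.pi_pos
      nlinarith
    gcongr
  have key := hasSum_deriv_of_summable_norm hsum hFd hUo hle hτU
  have hEq : (fun w : ℂ => ∑' i : ℕ, F i w) =ᶠ[𝓝 (τ : ℂ)] (f ∘ ofComplex) := by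
    have : upperHalfPlaneSet ∈ 𝓝 (τ : ℂ) := isOpen_upperHalfPlaneSet.mem_nhds τ.im_pos
    filter_upwards [this] with w hw
    have h2 := (hf ⟨w, hw⟩).tsum_eq
    simp only [Function.comp_apply, ofComplex_apply_of_im_pos hw]
    rw [← h2]
    simp [F, qq_eq]
  rw [hEq.deriv_eq] at key
  have key2 := key.mul_left ((2 * Real.pi * I)⁻¹)
  have hd : ∀ m : ℕ, (2 * Real.pi * I)⁻¹ * _root_.deriv (F m) (τ : ℂ) =
      PowerSeries.coeff m (theta p) * qq τ ^ m := by
    intro m
    have h0 : (2 * Real.pi * I : ℂ) ≠ 0 := two_pi_I_ne_zero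
    have hder : HasDerivAt (F m) (PowerSeries.coeff m p *
        (m * exp (2 * Real.pi * I * τ) ^ (m - 1) * (exp (2 * Real.pi * I * τ) *
          (2 * Real.pi * I)))) (τ : ℂ) := by
      have h1 : HasDerivAt (fun z : ℂ ↦ exp (2 * Real.pi * I * z))
          (exp (2 * Real.pi * I * τ) * (2 * Real.pi * I)) (τ : ℂ) := by
        have := ((hasDerivAt_id (τ : ℂ)).const_mul (2 * Real.pi * I : ℂ)).cexp
        simpa using this
      exact (h1.pow m).const_mul _
    rw [hder.deriv, coeff_theta, qq_eq]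
    rcases Nat.eq_zero_or_pos m with rfl | hm
    · simp
    · obtain ⟨k, rfl⟩ : ∃ k, m = k + 1 := ⟨m - 1, by omega⟩
      simp only [Nat.add_sub_cancel]
      field_simp
      rw [pow_succ]; ring
  simp only [hd] at key2
  exact key2

end Pool.Agent.H92
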