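import Pool.Agent.H92.PolyOp

open Polynomial

noncomputable section

namespace Pool.Agent.H92

section powersums

variable {κ : Type*} [Field κ] [Fintype κ] {p : ℕ}

lemma cast_p (hcard : Fintype.card κ = p) : (p : κ) = 0 := by
  rw [← hcard]; exact FiniteField.cast_card_eq_zero κ

lemma sum_pow_zero (hcard : Fintype.card κ = p) (hp : 2 ≤ p) {i : ℕ} (hi : i < 2 * (p - 1))
    (hi' : i ≠ p - 1) : ∑ x : κ, x ^ i = 0 := by
  rcases lt_or_ge i (p - 1) with h | h
  · exact FiniteField.sum_pow_lt_card_sub_one κ i (by rw [hcard]; exact h)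
  · obtain ⟨j, rfl⟩ : ∃ j, i = p + j := ⟨i - p, by omega⟩
    have : ∀ x : κ, x ^ (p + j) = x ^ (j + 1) := by
      intro x
      have hx : x ^ p = x := by rw [← hcard]; exact FiniteField.pow_card x
      rw [pow_add, hx, pow_succ]; ring
    simp only [this]
    exact FiniteField.sum_pow_lt_card_sub_one κ _ (by rw [hcard]; omega)

lemma sum_derivative (hcard : Fintype.card κ = p) (hp : 2 ≤ p) (G : (κ[X])[X])
    (hG : G.natDegree ≤ 2 * p - 2) : ∑ x : κ, (derivative G).eval (C x) = 0 := by
  have h1 : ∀ x : κ, (derivative G).eval (C x) =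
      ∑ k ∈ Finset.range (2 * p - 1), G.coeff k * (k : κ[X]) * C (x ^ (k - 1)) := by
    intro x
    conv_lhs => rw [G.as_sum_range' (2 * p - 1) (by omega)]
    rw [derivative_sum, eval_finsetSum]
    refine Finset.sum_congr rfl fun k _ ↦ ?_
    rw [derivative_monomial, eval_monomial, C_pow]
  simp only [h1]
  rw [Finset.sum_comm]
  refine Finset.sum_eq_zero fun k hk ↦ ?_
  rw [← Finset.mul_sum, ← map_sum]
  have hk' : k < 2 * p - 1 := Finset.mem_range.mp hk
  rcases Nat.eq_zero_or_pos k with rfl | hk0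
  · simp
  · rcases eq_or_ne k p with rfl | hkp
    · have : (k : κ[X]) = 0 := by
        rw [← C_eq_natCast, cast_p hcard, C_0]
      rw [this]; simp
    · rw [sum_pow_zero hcard hp (by omega) (by omega)]
      simp

end powersums

section hasse

variable {κ : Type*} [Field κ] [Fintype κ] {p : ℕ}

/-- the cubic `(1728 - X) x³ + 3 X x + 2 X` in the variable `X` for fixed `x` -/
def gx (x : κ) : κ[X] := (C 1728 - X) * C x ^ 3 + C 3 * X * C x + C 2 * X

/-- the same cubic with the outer variable `Y` in place of `x` -/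
def gY (κ : Type*) [Field κ] : (κ[X])[X] := C (C 1728 - X) * X ^ 3 + C (C 3 * X) * X + C (C 2 * X)

/-- the auxiliary polynomial -/
def BY (κ : Type*) [Field κ] : (κ[X])[X] :=
  C (- C 288 * X ^ 2) + C (C 1327104 * X - C 1632 * X ^ 2) * X
  + C (C 2488320 * X - C 2088 * X ^ 2) * X ^ 2
  + C (C 286654464 - C 1451520 * X + C 744 * X ^ 2) * X ^ 4

omit [Fintype κ] in
lemma gY_eval (x : κ) : (gY κ).eval (C x) = gx x := by
  simp [gY, gx]

/-- `∂g/∂X` -/
def hx (x : κ) : κ := - x ^ 3 + 3 * x + 2

omit [Fintype κ] in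
lemma gx_eq (x : κ) : gx x = C (1728 * x ^ 3) + C (hx x) * X := by
  simp only [gx, hx, map_mul, map_add, map_neg, map_pow]
  ring

omit [Fintype κ] in
lemma derivative_gx (x : κ) : derivative (gx x) = C (hx x) := by
  rw [gx_eq, derivative_add, derivative_C, derivative_mul, derivative_C, derivative_X]
  ring

/-- (minus) the Hasse polynomial -/
def SS (κ : Type*) [Field κ] [Fintype κ] (n : ℕ) : κ[X] := ∑ x : κ, gx x ^ n

omit [Fintype κ] in
lemma derivative_gY : derivative (gY κ) = C (C 1728 - X) * (C 3 * X ^ 2) + C (C 3 * X) := by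
  rw [gY, derivative_add, derivative_add, derivative_mul, derivative_mul, derivative_C,
    derivative_C, derivative_C, derivative_X, derivative_X_pow]
  norm_num

omit [Fintype κ] in
lemma derivative_BY : derivative (BY κ) = C (C 1327104 * X - C 1632 * X ^ 2)
    + C (C 2488320 * X - C 2088 * X ^ 2) * (C 2 * X)
    + C (C 286654464 - C 1451520 * X + C 744 * X ^ 2) * (C 4 * X ^ 3) := by
  rw [BY, derivative_add, derivative_add, derivative_add, derivative_mul, derivative_mul,
    derivative_mul, derivative_C, derivative_C, derivative_C, derivative_C, derivative_X,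
    derivative_X_pow, derivative_X_pow]
  norm_num

omit [Fintype κ] in
lemma key_identity (x : κ) :
    C 3 * (AA κ) ^ 2 * C (hx x) ^ 2 - C 2 * AA κ * (C 2 * X - C 1728) * C (hx x) * gx x
      + (X ^ 2 - C 1968 * X - C 331776) * gx x ^ 2 =
    C 4 * (derivative (BY κ)).eval (C x) * gx x
      - C 6 * (BY κ).eval (C x) * (derivative (gY κ)).eval (C x) := by
  rw [derivative_BY, derivative_gY]
  simp only [AA, BY, gx, hx, eval_add, eval_mul, eval_C, eval_X, eval_pow, map_add, map_mul,
    map_neg, map_pow, eval_neg]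
  simp only [C_ofNat]
  ring

omit [Fintype κ] in
lemma natDegree_gY_le : (gY κ).natDegree ≤ 3 := by
  unfold gY
  compute_degree

omit [Fintype κ] in
lemma natDegree_BY_le : (BY κ).natDegree ≤ 4 := by
  unfold BY
  compute_degree

lemma two_n (hcard : Fintype.card κ = p) {n : ℕ} (hn : p = 2 * n + 1) : (2 : κ) * n = -1 := by
  have := cast_p hcard
  rw [hn] at this
  push_cast at this
  linear_combination this

theorem ode_SS (hcard : Fintype.card κ = p) {n : ℕ} (hn : p = 2 * n + 1) (hn2 : 2 ≤ n) :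
    C 4 * (AA κ) ^ 2 * derivative (derivative (SS κ n))
      + C 4 * AA κ * (C 2 * X - C 1728) * derivative (SS κ n)
      + (X ^ 2 - C 1968 * X - C 331776) * SS κ n = 0 := by
  obtain ⟨m, rfl⟩ : ∃ m, n = m + 2 := ⟨n - 2, by omega⟩
  have h2 := two_n hcard hn
  push_cast at h2
  have hC2 : C 2 * (C (m : κ) + C 2) = C (-1) := by
    rw [← h2, map_mul, map_add]
  have hd : derivative (SS κ (m + 2)) =
      ∑ x : κ, C ((m : κ) + 2) * gx x ^ (m + 1) * C (hx x) := by
    rw [SS, derivative_sum]
    refine Finset.sum_congr rfl fun x _ ↦ ?_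
    rw [derivative_pow, derivative_gx]
    push_cast
    simp
  have hdd : derivative (derivative (SS κ (m + 2))) =
      ∑ x : κ, C ((m : κ) + 2) * (C ((m : κ) + 1) * gx x ^ m * C (hx x)) * C (hx x) := by
    rw [hd, derivative_sum]
    refine Finset.sum_congr rfl fun x _ ↦ ?_
    rw [derivative_mul, derivative_mul, derivative_C, derivative_C, derivative_pow, derivative_gx]
    push_cast
    simp
  have hsum := sum_derivative hcard (by omega) (BY κ * gY κ ^ (m + 1)) (by
    refine natDegree_mul_le.trans ?_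
    have h1 := natDegree_pow_le_of_le (m + 1) (natDegree_gY_le (κ := κ))
    have h3 := natDegree_BY_le (κ := κ)
    omega)
  have hsum4 : ∑ x : κ, C 4 * (derivative (BY κ * gY κ ^ (m + 1))).eval (C x) = 0 := by
    rw [← Finset.mul_sum, hsum, mul_zero]
  rw [hdd, hd, SS, Finset.mul_sum, Finset.mul_sum, Finset.mul_sum, ← Finset.sum_add_distrib,
    ← Finset.sum_add_distrib, ← hsum4]
  refine Finset.sum_congr rfl fun x _ ↦ ?_
  have hk := key_identity x
  rw [derivative_mul, derivative_pow, eval_add, eval_mul, eval_mul, eval_mul, eval_mul, eval_pow,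
    eval_pow, gY_eval, eval_C]
  simp only [Nat.add_sub_cancel]
  have hm : (m : κ[X]) * 2 = -5 := by
    have h1 : (m : κ) * 2 = -5 := by linear_combination h2
    have h3 := congrArg C h1
    rw [map_mul, map_natCast, map_neg, C_ofNat, C_ofNat] at h3
    exact h3
  push_cast
  simp only [map_add, map_one, map_natCast, C_ofNat] at hk ⊢
  linear_combination gx x ^ m * hk + (gx x ^ m * AA κ ^ 2 * C (hx x) ^ 2 * (2 * (m : κ[X]) + 1)
    + 2 * gx x ^ (m + 1) * AA κ * (2 * X - 1728) * C (hx x)
    - 2 * gx x ^ m * eval (C x) (BY κ) * eval (C x) (derivative (gY κ))) * hm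

/-! ### size of `SS` -/

omit [Fintype κ] in
lemma natDegree_gx_le (x : κ) : (gx x).natDegree ≤ 1 := by
  rw [gx_eq]
  compute_degree

lemma natDegree_SS_le (n : ℕ) : (SS κ n).natDegree ≤ n := by
  unfold SS
  refine natDegree_sum_le_of_forall_le _ _ fun x _ ↦ ?_
  have := natDegree_pow_le_of_le n (natDegree_gx_le x)
  simpa using this

omit [Fintype κ] in
lemma coeff_gx_pow (x : κ) (n : ℕ) : (gx x ^ n).coeff n = hx x ^ n := by
  have h := coeff_pow_of_natDegree_le (natDegree_gx_le x) (m := n)
  rw [mul_one] at h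
  rw [h, gx_eq, coeff_add, coeff_C, if_neg one_ne_zero, coeff_C_mul, coeff_X_one]
  ring

open Classical in
lemma coeff_SS (hcard : Fintype.card κ = p) {n : ℕ} (hn : p = 2 * n + 1) (hn2 : 2 ≤ n) :
    (SS κ n).coeff n = - 3 ^ n := by
  rw [SS, finsetSum_coeff]
  simp only [coeff_gx_pow]
  have h1 : ∀ x : κ, hx x ^ n = (2 - x) ^ n - if x = -1 then 3 ^ n else 0 := by
    intro x
    split_ifs with hx1
    · subst hx1
      have : hx (-1 : κ) = 0 := by rw [hx]; ring
      rw [this, zero_pow (by omega)]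
      ring
    · have h2 : hx x = (2 - x) * (x + 1) ^ 2 := by rw [hx]; ring
      rw [h2, mul_pow, ← pow_mul]
      have h3 : x + 1 ≠ 0 := fun h ↦ hx1 (by linear_combination h)
      have h4 : (x + 1) ^ (2 * n) = 1 := by
        have := FiniteField.pow_card_sub_one_eq_one (x + 1) h3
        rw [hcard, hn] at this
        simpa using this
      rw [h4]; ring
  simp only [h1]
  rw [Finset.sum_sub_distrib]
  have h5 : ∑ x : κ, (2 - x) ^ n = 0 := by
    have e : ∑ x : κ, (2 - x) ^ n = ∑ x : κ, x ^ n :=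
      (Equiv.subLeft (2 : κ)).sum_comp (fun x ↦ x ^ n)
    rw [e]
    exact sum_pow_zero hcard (by omega) (by omega) (by omega)
  rw [h5]
  simp [Finset.sum_ite_eq']

lemma eval_SS (n : ℕ) (c : κ) :
    (SS κ n).eval c = ∑ x : κ, ((1728 - c) * x ^ 3 + 3 * c * x + 2 * c) ^ n := by
  simp [SS, eval_finsetSum, gx]

end hasse

end Pool.Agent.H92
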