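import Pool.Agent.H92.Hasse

open Polynomial

noncomputable section

namespace Pool.Agent.H92

variable {κ : Type*} [Field κ]

/-- the second order operator annihilating the Hasse polynomial -/
def Mop (S : κ[X]) : κ[X] :=
  C 4 * (AA κ) ^ 2 * derivative (derivative S) + C 4 * AA κ * (C 2 * X - C 1728) * derivative S
      + (X ^ 2 - C 1968 * X - C 331776) * S

lemma derivative_AA : derivative (AA κ) = C 2 * X - C 1728 := by
  rw [AA, derivative_mul, derivative_X, derivative_sub, derivative_X, derivative_C]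
  rw [C_ofNat 2]; ring

lemma ww_sq (S : κ[X]) : ww (S ^ 2) = C 36 * S ^ 3 * Mop S := by
  have h1 : derivative (S ^ 2) = C 2 * S * derivative S := by
    rw [derivative_pow]; simp
  have hell : ell (S ^ 2) = (C 3456 - C 5 * X) * S ^ 2 - C 12 * AA κ * S * derivative S := by
    rw [ell, h1]
    have : (C 12 : κ[X]) = C 6 * C 2 := by rw [← C_mul]; norm_num
    rw [this]; ring
  have hl' : derivative (ell (S ^ 2)) = - C 5 * S ^ 2 + (C 3456 - C 5 * X) * (C 2 * S * derivative S)
      - C 12 * ((C 2 * X - C 1728) * S * derivative S + AA κ * (derivative S) ^ 2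
        + AA κ * S * derivative (derivative S)) := by
    rw [hell, derivative_sub, derivative_mul, h1, derivative_sub, derivative_mul, derivative_mul,
      derivative_mul, derivative_mul, derivative_AA]
    simp only [derivative_C, derivative_X]
    ring
  rw [ww, hl', hell, Mop]
  generalize derivative (derivative S) = S2
  generalize derivative S = S1
  simp only [AA, C_ofNat]
  ring

lemma Lop_sq_of_Mop {S : κ[X]} (h : Mop S = 0) (hS : S ≠ 0) : Lop (S ^ 2) = 0 := by
  have h1 := derivative_ww (S ^ 2)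
  rw [ww_sq, h, mul_zero, derivative_zero, mul_zero] at h1
  have h2 : S ^ 2 * Lop (S ^ 2) = 0 := by linear_combination h1
  exact (mul_eq_zero.mp h2).resolve_left (pow_ne_zero 2 hS)

section charp

variable {p : ℕ} [hp : Fact p.Prime] [CharP κ p]

omit hp in
lemma natCast_ne_zero_of_lt {d : ℕ} (h0 : 0 < d) (h : d < p) : (d : κ) ≠ 0 := by
  rw [Ne, CharP.cast_eq_zero_iff κ p]
  exact Nat.not_dvd_of_pos_of_lt h0 h

omit hp in
lemma two_ne_zero' (h5 : 5 ≤ p) : (2 : κ) ≠ 0 := by
  have := natCast_ne_zero_of_lt (κ := κ) (p := p) (d := 2) (by norm_num) (by omega)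
  simpa using this

omit hp in
lemma three_ne_zero' (h5 : 5 ≤ p) : (3 : κ) ≠ 0 := by
  have := natCast_ne_zero_of_lt (κ := κ) (p := p) (d := 3) (by norm_num) (by omega)
  simpa using this

omit hp in
lemma Lop_inj (h5 : 5 ≤ p) {F : κ[X]} (hF : Lop F = 0) (hd : F.natDegree < p - 1) : F = 0 := by
  by_contra hne
  have h1 := coeff_Lop_succ F F.natDegree
  rw [hF, coeff_zero, coeff_eq_zero_of_natDegree_lt (n := F.natDegree + 1) (by omega),
    coeff_eq_zero_of_natDegree_lt (n := F.natDegree + 2) (by omega), coeff_natDegree] at h1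
  have h2 : (216 : κ) * ((F.natDegree : κ) + 1) ^ 3 * F.leadingCoeff = 0 := by
    linear_combination h1
  have h3 : ((F.natDegree : κ) + 1) ≠ 0 := by
    have := natCast_ne_zero_of_lt (κ := κ) (p := p) (d := F.natDegree + 1) (by omega) (by omega)
    simpa using this
  have h4 : (216 : κ) ≠ 0 := by
    have e : (216 : κ) = 2 ^ 3 * 3 ^ 3 := by norm_num
    rw [e]
    exact mul_ne_zero (pow_ne_zero _ (two_ne_zero' (p := p) h5))
      (pow_ne_zero _ (three_ne_zero' (p := p) h5))
  exact (mul_ne_zero (mul_ne_zero h4 (pow_ne_zero _ h3)) (leadingCoeff_ne_zero.mpr hne)) h2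

lemma ell_sub {R : Type*} [CommRing R] (F G : R[X]) : ell (F - G) = ell F - ell G := by
  rw [ell, ell, ell, derivative_sub]; ring

lemma Lop_sub {R : Type*} [CommRing R] (F G : R[X]) : Lop (F - G) = Lop F - Lop G := by
  rw [Lop, ell_sub, derivative_sub, derivative_sub, Lop, Lop]; ring

omit hp in
theorem unique_P [Fintype κ] (hcard : Fintype.card κ = p) {n : ℕ} (hn : p = 2 * n + 1) (h5 : 5 ≤ p)
    {F : κ[X]} (hF : Lop F = 0) (hd : F.natDegree ≤ p - 1) (hc : F.coeff (p - 1) = 1) :
    F = (SS κ n) ^ 2 := by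
  have hS : Mop (SS κ n) = 0 := ode_SS hcard hn (by omega)
  have h3 : (3 : κ) ≠ 0 := three_ne_zero' (p := p) h5
  have hcoeff := coeff_SS hcard hn (by omega)
  have hS0 : SS κ n ≠ 0 := by
    intro h
    rw [h, coeff_zero] at hcoeff
    exact (pow_ne_zero n h3) (by linear_combination hcoeff)
  have hL := Lop_sq_of_Mop hS hS0
  have hdS : ((SS κ n) ^ 2).natDegree ≤ p - 1 := by
    have := natDegree_pow_le_of_le 2 (natDegree_SS_le (κ := κ) n)
    omega
  have hcS : ((SS κ n) ^ 2).coeff (p - 1) = 1 := by
    have h := coeff_pow_of_natDegree_le (natDegree_SS_le (κ := κ) n) (m := 2)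
    rw [show 2 * n = p - 1 by omega] at h
    rw [h, hcoeff]
    have h6 := FiniteField.pow_card_sub_one_eq_one (3 : κ) h3
    rw [hcard, hn] at h6
    simp only [Nat.add_sub_cancel] at h6
    rw [mul_comm, pow_mul] at h6
    rw [neg_sq]; exact h6
  have hsub : F - (SS κ n) ^ 2 = 0 := by
    apply Lop_inj (p := p) h5
    · rw [Lop_sub, hF, hL, sub_zero]
    · have h7 : (F - (SS κ n) ^ 2).natDegree ≤ p - 1 := by
        simpa using natDegree_sub_le_of_le hd hdS
      rcases lt_or_eq_of_le h7 with h8 | h8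
      · exact h8
      · exfalso
        have h9 : (F - (SS κ n) ^ 2).coeff (p - 1) = 0 := by
          rw [coeff_sub, hc, hcS, sub_self]
        rw [← h8, coeff_natDegree, leadingCoeff_eq_zero] at h9
        rw [h9, natDegree_zero] at h8
        omega
  exact sub_eq_zero.mp hsub

omit hp in
/-- zeros of a solution of the second order equation are simple away from `0` and `1728` -/
lemma simple_root {S : κ[X]} (h : Mop S = 0) (hS : S ≠ 0) (h5 : 5 ≤ p) (hdeg : S.natDegree < p)
    {c : κ} (hc : S.eval c = 0) (hA : (AA κ).eval c ≠ 0) : (derivative S).eval c ≠ 0 := by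
  obtain ⟨G, hG, hnd⟩ := exists_eq_pow_rootMultiplicity_mul_and_not_dvd S hS c
  set r := S.rootMultiplicity c with hr
  have hGc : G.eval c ≠ 0 := fun h0 ↦ hnd (dvd_iff_isRoot.mpr h0)
  have hr0 : 0 < r := (rootMultiplicity_pos hS).mpr hc
  have hrp : r < p := by
    have h1 : ((X - C c) ^ r).natDegree ≤ S.natDegree :=
      natDegree_le_of_dvd ⟨G, hG⟩ hS
    rw [natDegree_pow, natDegree_X_sub_C, mul_one] at h1
    omega
  clear_value r
  rcases Nat.lt_or_ge r 2 with h1 | h2
  · obtain rfl : r = 1 := by omega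
    rw [hG, pow_one, derivative_mul, derivative_sub, derivative_X, derivative_C]
    simpa using hGc
  · exfalso
    obtain ⟨k, rfl⟩ : ∃ k, r = k + 2 := ⟨r - 2, by omega⟩
    set Y : κ[X] := X - C c with hY
    have hY0 : Y ≠ 0 := X_sub_C_ne_zero c
    have hYd : derivative Y = 1 := by rw [hY]; simp
    have hYc : Y.eval c = 0 := by rw [hY]; simp
    clear_value Y
    have d1 : derivative S = C ((k : κ) + 2) * Y ^ (k + 1) * G + Y ^ (k + 2) * derivative G := by
      rw [hG, derivative_mul, derivative_pow, hYd]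
      push_cast
      simp
    have d2 : derivative (derivative S) = C ((k : κ) + 2) * (C ((k : κ) + 1) * Y ^ k * G)
        + C 2 * (C ((k : κ) + 2) * Y ^ (k + 1) * derivative G)
        + Y ^ (k + 2) * derivative (derivative G) := by
      rw [d1, derivative_add, derivative_mul, derivative_mul, derivative_mul, derivative_pow,
        derivative_pow, hYd, derivative_C]
      simp only [Nat.add_sub_cancel, C_ofNat, mul_one]
      push_cast
      simp only [map_add, C_ofNat, map_one, map_natCast]
      ring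
    have hM : Y ^ k * (C 4 * AA κ ^ 2 * (C ((k : κ) + 2) * C ((k : κ) + 1) * G
        + C 2 * C ((k : κ) + 2) * Y * derivative G + Y ^ 2 * derivative (derivative G))
        + C 4 * AA κ * (C 2 * X - C 1728) * (C ((k : κ) + 2) * Y * G + Y ^ 2 * derivative G)
        + (X ^ 2 - C 1968 * X - C 331776) * (Y ^ 2 * G)) = 0 := by
      rw [← h, Mop, d2, d1, hG]
      ring
    have hM2 := (mul_eq_zero.mp hM).resolve_left (pow_ne_zero k hY0)
    have hM3 := congrArg (eval c) hM2
    simp only [eval_add, eval_mul, eval_pow, hYc, eval_C, eval_zero] at hM3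
    have h4 : (4 : κ) ≠ 0 := by
      rw [show (4 : κ) = 2 ^ 2 by norm_num]
      exact pow_ne_zero _ (two_ne_zero' (p := p) h5)
    have hk1 : ((k : κ) + 1) ≠ 0 := by
      have := natCast_ne_zero_of_lt (κ := κ) (p := p) (d := k + 1) (by omega) (by omega)
      simpa using this
    have hk2 : ((k : κ) + 2) ≠ 0 := by
      have := natCast_ne_zero_of_lt (κ := κ) (p := p) (d := k + 2) (by omega) (by omega)
      simpa using this
    have : (4 : κ) * (AA κ).eval c ^ 2 * (((k : κ) + 2) * ((k : κ) + 1) * G.eval c) = 0 := by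
      linear_combination hM3
    exact (mul_ne_zero (mul_ne_zero h4 (pow_ne_zero 2 hA))
      (mul_ne_zero (mul_ne_zero hk2 hk1) hGc)) this

end charp

end Pool.Agent.H92
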