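import Pool.Agent.H92.PPoly
import Pool.Agent.H92.ModP

open Polynomial

noncomputable section

namespace Pool.Agent.H92

section map

variable {R S : Type*} [CommRing R] [CommRing S] (φ : R →+* S)

lemma map_AA : (AA R).map φ = AA S := by
  simp [AA, map_ofNat φ]

lemma map_ell (F : R[X]) : (ell F).map φ = ell (F.map φ) := by
  simp [ell, map_AA, Polynomial.map_sub, Polynomial.map_mul, ← derivative_map, map_ofNat φ]

lemma map_Lop (F : R[X]) : (Lop F).map φ = Lop (F.map φ) := by
  simp [Lop, map_AA, map_ell, Polynomial.map_sub, Polynomial.map_mul, ← derivative_map, map_ofNat φ]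

lemma map_ww (F : R[X]) : (ww F).map φ = ww (F.map φ) := by
  simp [ww, map_AA, map_ell, Polynomial.map_sub, Polynomial.map_mul, ← derivative_map, map_ofNat φ]

end map

section degrees

variable {R : Type*} [CommRing R]

lemma natDegree_AA_le : (AA R).natDegree ≤ 2 := by
  unfold AA
  refine natDegree_mul_le.trans ?_
  have h1 : (X : R[X]).natDegree ≤ 1 := natDegree_X_le
  have h2 : (X - C 1728 : R[X]).natDegree ≤ 1 := by compute_degree
  omega

lemma natDegree_ell_le {F : R[X]} {d : ℕ} (hF : F.natDegree ≤ d) : (ell F).natDegree ≤ d + 1 := by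
  unfold ell
  have h1 : ((C 3456 - C 5 * X) * F : R[X]).natDegree ≤ d + 1 := by
    refine natDegree_mul_le.trans ?_
    have : (C 3456 - C 5 * X : R[X]).natDegree ≤ 1 := by compute_degree
    omega
  rcases Nat.eq_zero_or_pos F.natDegree with h0 | h0
  · have : derivative F = 0 := by
      rw [eq_C_of_natDegree_eq_zero h0]; simp
    rw [this, mul_zero, sub_zero]
    exact h1
  · have h2 : (C 6 * AA R * derivative F).natDegree ≤ d + 1 := by
      refine natDegree_mul_le.trans ?_
      have h3 : (C 6 * AA R : R[X]).natDegree ≤ 2 := (natDegree_C_mul_le _ _).trans natDegree_AA_le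
      have h4 := natDegree_derivative_lt (p := F) (by omega)
      omega
    have := natDegree_sub_le_of_le h1 h2
    simpa using this

lemma natDegree_ww_le {F : R[X]} {d : ℕ} (hF : F.natDegree ≤ d) :
    (ww F).natDegree ≤ 2 * d + 2 := by
  unfold ww
  have h1 : (AA R * F ^ 2).natDegree ≤ 2 * d + 2 := by
    refine natDegree_mul_le.trans ?_
    have h3 := natDegree_AA_le (R := R)
    have h4 := natDegree_pow_le_of_le 2 hF
    omega
  have hl := natDegree_ell_le hF
  have h2 : (C 12 * AA R * F * derivative (ell F)).natDegree ≤ 2 * d + 2 := by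
    have h5 : (C 12 * AA R * F : R[X]).natDegree ≤ d + 2 := by
      refine natDegree_mul_le.trans ?_
      have h3 : (C 12 * AA R : R[X]).natDegree ≤ 2 := (natDegree_C_mul_le _ _).trans natDegree_AA_le
      omega
    have h6 : (derivative (ell F)).natDegree ≤ d := by
      refine (natDegree_derivative_le _).trans ?_
      omega
    refine natDegree_mul_le.trans ?_
    omega
  have h3 : (ell F ^ 2).natDegree ≤ 2 * d + 2 := by
    have := natDegree_pow_le_of_le 2 hl
    omega
  have h4 := natDegree_sub_le_of_le h1 h2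
  rw [max_self] at h4
  have h5 := natDegree_sub_le_of_le h4 h3
  simpa using h5

end degrees

section lead

variable {R : Type*} [CommRing R] [IsDomain R] [CharZero R]

lemma t_coeff_one {t : PowerSeries R} (ht : 1728 * t * E4s R ^ 3 = E4s R ^ 3 - E6s R ^ 2) :
    PowerSeries.coeff 1 t = 1 := by
  have ht0 := t_const ht
  have h := congrArg (PowerSeries.coeff (R := R) 1) ht
  have hc : ∀ a b : PowerSeries R, PowerSeries.coeff 1 (a * b) =
      PowerSeries.constantCoeff a * PowerSeries.coeff 1 b +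
      PowerSeries.coeff 1 a * PowerSeries.constantCoeff b := by
    intro a b
    rw [PowerSeries.coeff_mul]
    simp [Finset.Nat.antidiagonal_succ]
  have e4 : PowerSeries.coeff 1 (E4s R) = 240 := by
    rw [coeff_E4s]; simp
  have e6 : PowerSeries.coeff 1 (E6s R) = -504 := by
    rw [coeff_E6s]; simp
  rw [show (1728 : PowerSeries R) = PowerSeries.C (1728 : R) from
    (map_ofNat PowerSeries.C 1728).symm] at h
  simp only [pow_succ, pow_zero, one_mul, map_sub, hc, map_mul, constCoeff_E4s, constCoeff_E6s,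
    e4, e6, ht0, PowerSeries.constantCoeff_C, PowerSeries.coeff_C] at h
  norm_num at h
  exact h

lemma cc_top {t : PowerSeries R} (ht : 1728 * t * E4s R ^ 3 = E4s R ^ 3 - E6s R ^ 2) (m : ℕ) :
    cc t (m + 1) m = 1 := by
  have ht0 := t_const ht
  have ht1 := t_coeff_one ht
  obtain ⟨s, hs⟩ := PowerSeries.X_dvd_iff.mpr ht0
  have hs0 : PowerSeries.constantCoeff s = 1 := by
    rw [hs, show (1 : ℕ) = 0 + 1 by rfl, PowerSeries.coeff_succ_X_mul,
      PowerSeries.coeff_zero_eq_constantCoeff_apply] at ht1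
    exact ht1
  have h := PowerSeries.coeff_X_pow_mul (E4s R * s ^ (m + 1)) (m + 1) 0
  rw [zero_add] at h
  rw [cc, hs, mul_pow, mul_left_comm, h, PowerSeries.coeff_zero_eq_constantCoeff_apply]
  simp [constCoeff_E4s, hs0]

end lead

section main

variable {R : Type*} [CommRing R] [IsDomain R] [CharZero R] {κ : Type*} [Field κ] [Fintype κ]
  {p : ℕ} [hp : Fact p.Prime] [CharP κ p] (φ : R →+* κ)

omit [IsDomain R] [CharZero R] hp in
lemma natDegree_PP_le {t : PowerSeries R} : (PP t p).natDegree ≤ p - 1 := by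
  unfold PP
  refine natDegree_sum_le_of_forall_le _ _ fun i hi ↦ ?_
  refine (natDegree_monomial_le _).trans ?_
  have := Finset.mem_range.mp hi
  omega

omit hp in
theorem PP_map_eq (hφ : ∀ x, φ x = 0 ↔ (p : R) ∣ x) (hcard : Fintype.card κ = p) (h5 : 5 ≤ p)
    {n : ℕ} (hn : p = 2 * n + 1)
    {t : PowerSeries R} (ht : 1728 * t * E4s R ^ 3 = E4s R ^ 3 - E6s R ^ 2) :
    (PP t p).map φ = (SS κ n) ^ 2 := by
  apply unique_P hcard hn h5
  · rw [← map_Lop]
    ext k
    rw [coeff_map, coeff_Lop_PP ht, coeff_zero, hφ]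
    rw [dvd_neg]
    refine Dvd.dvd.mul_right (Dvd.dvd.mul_left (dvd_pow_self _ (by norm_num)) _) _
  · exact natDegree_map_le.trans natDegree_PP_le
  · rw [coeff_map, coeff_PP (t_const ht)]
    have := cc_top ht (p - 1)
    rw [Nat.sub_add_cancel (by omega)] at this
    rw [this, map_one]

/-- all coefficients of `ww (PP t p)` are divisible by `p²` -/
theorem dvd_coeff_ww (hφ : ∀ x, φ x = 0 ↔ (p : R) ∣ x) (hpp : Prime (p : R))
    (hcard : Fintype.card κ = p) (h5 : 5 ≤ p)
    {t : PowerSeries R} (ht : 1728 * t * E4s R ^ 3 = E4s R ^ 3 - E6s R ^ 2) (i : ℕ) :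
    (p : R) ^ 2 ∣ (ww (PP t p)).coeff i := by
  have hodd : ∃ n, p = 2 * n + 1 := by
    rcases hp.out.eq_two_or_odd' with h | h
    · omega
    · obtain ⟨n, hn⟩ := h; exact ⟨n, hn⟩
  obtain ⟨n, hn⟩ := hodd
  have hnat : ∀ j : ℕ, 0 < j → j < p → ¬ (p : R) ∣ (j : R) := by
    intro j hj0 hj h
    rw [← hφ, map_natCast] at h
    exact natCast_ne_zero_of_lt (κ := κ) (p := p) hj0 hj h
  have h3 : ¬ (p : R) ∣ 3 := by
    have := hnat 3 (by norm_num) (by omega)
    simpa using this
  rcases Nat.eq_zero_or_pos i with rfl | hi0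
  · -- constant coefficient
    have h1 : (ww (PP t p)).coeff 0 = - (3456 * (PP t p).coeff 0) ^ 2 := by
      rw [ww, coeff_sub, ← coeff_ell_zero]
      have e1 : (ell (PP t p) ^ 2).coeff 0 = (ell (PP t p)).coeff 0 ^ 2 := by
        rw [pow_two, mul_coeff_zero, pow_two]
      have e2 : (AA R * PP t p ^ 2 - C 12 * AA R * PP t p * derivative (ell (PP t p))).coeff 0 = 0 := by
        rw [coeff_sub]
        simp [AA, mul_coeff_zero]
      rw [e1, e2, zero_sub]
    have h2 : φ ((ww (PP t p)).coeff 0) = 0 := by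
      rw [← coeff_map, map_ww, PP_map_eq φ hφ hcard h5 hn ht, ww_sq,
        show Mop (SS κ n) = 0 from ode_SS hcard hn (by omega), mul_zero, coeff_zero]
    rw [hφ, h1, dvd_neg] at h2
    have h4 := hpp.dvd_of_dvd_pow h2
    rw [h1, dvd_neg]
    exact pow_dvd_pow_of_dvd h4 2
  · -- other coefficients
    obtain ⟨k, rfl⟩ : ∃ k, i = k + 1 := ⟨i - 1, by omega⟩
    by_cases hdeg : (ww (PP t p)).natDegree < k + 1
    · rw [coeff_eq_zero_of_natDegree_lt hdeg]
      exact dvd_zero _
    have hd2 := natDegree_ww_le (natDegree_PP_le (R := R) (p := p) (t := t))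
    have hk : k + 1 ≤ 2 * p := by omega
    have hLdvd : ∀ m, (p : R) ^ 3 ∣ (Lop (PP t p)).coeff m := by
      intro m
      rw [coeff_Lop_PP ht, dvd_neg]
      exact Dvd.dvd.mul_right (Dvd.dvd.mul_left dvd_rfl _) _
    have h6 := congrArg (coeff · k) (derivative_ww (PP t p))
    simp only [coeff_C_mul, coeff_derivative, neg_mul, coeff_neg] at h6
    have h7 : (p : R) ^ 3 ∣ (PP t p * Lop (PP t p)).coeff k := by
      rw [coeff_mul]
      exact Finset.dvd_sum fun x _ ↦ Dvd.dvd.mul_left (hLdvd _) _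
    have h8 : (p : R) ^ 3 ∣ 3 * ((ww (PP t p)).coeff (k + 1) * ((k : R) + 1)) := by
      rw [h6, dvd_neg]; exact h7
    have h9 : (p : R) ^ 3 ∣ (ww (PP t p)).coeff (k + 1) * ((k : R) + 1) :=
      hpp.pow_dvd_of_dvd_mul_left 3 h3 h8
    by_cases hpk : p ∣ k + 1
    · obtain ⟨j, hj⟩ := hpk
      have hj0 : 0 < j := by
        rcases Nat.eq_zero_or_pos j with rfl | h
        · simp at hj
        · exact h
      have hj2 : j < p := by
        have : p * j ≤ p * 2 := by omega
        have := Nat.le_of_mul_le_mul_left this (by omega)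
        omega
      have e : ((k : R) + 1) = (p : R) * (j : R) := by
        have := congrArg (Nat.cast (R := R)) hj
        push_cast at this
        exact this
      rw [e] at h9
      have h10 : (p : R) * (p : R) ^ 2 ∣ (p : R) * ((j : R) * (ww (PP t p)).coeff (k + 1)) := by
        have : (p : R) * (p : R) ^ 2 = (p : R) ^ 3 := by ring
        rw [this]
        convert h9 using 1
        ring
      have h11 := (mul_dvd_mul_iff_left hpp.ne_zero).mp h10
      exact hpp.pow_dvd_of_dvd_mul_left 2 (hnat j hj0 hj2) h11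
    · have h10 : ¬ (p : R) ∣ ((k : R) + 1) := by
        intro h
        rw [← hφ] at h
        have h12 : (((k + 1 : ℕ)) : κ) = 0 := by
          push_cast
          simpa using h
        rw [CharP.cast_eq_zero_iff κ p] at h12
        exact hpk h12
      have h13 := hpp.pow_dvd_of_dvd_mul_right 3 h10 h9
      exact (pow_dvd_pow _ (by norm_num)).trans h13

/-- **Main congruence.** -/
theorem main_congruence (hφ : ∀ x, φ x = 0 ↔ (p : R) ∣ x) (hpp : Prime (p : R))
    (hcard : Fintype.card κ = p) (h5 : 5 ≤ p) {n : ℕ} (hn : p = 2 * n + 1)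
    {t : PowerSeries R} (ht : 1728 * t * E4s R ^ 3 = E4s R ^ 3 - E6s R ^ 2)
    (c : R) (hc0 : φ c ≠ 0) (hc1 : φ c ≠ 1728) (hS : (SS κ n).eval (φ c) = 0) :
    (p : R) ^ 2 ∣ (PP t p).eval c := by
  set P := PP t p with hP
  have hmap : P.map φ = (SS κ n) ^ 2 := PP_map_eq φ hφ hcard h5 hn ht
  have hA : (AA κ).eval (φ c) ≠ 0 := by
    simp only [AA, eval_mul, eval_X, eval_sub, eval_C]
    exact mul_ne_zero hc0 (sub_ne_zero.mpr hc1)
  have h3κ : (3 : κ) ≠ 0 := three_ne_zero' (p := p) h5
  have h2κ : (2 : κ) ≠ 0 := two_ne_zero' (p := p) h5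
  have hSne : SS κ n ≠ 0 := by
    intro h
    have hcoeff := coeff_SS hcard hn (by omega)
    rw [h, coeff_zero] at hcoeff
    exact (pow_ne_zero n h3κ) (by linear_combination hcoeff)
  have hMop : Mop (SS κ n) = 0 := ode_SS hcard hn (by omega)
  have hS' : (derivative (SS κ n)).eval (φ c) ≠ 0 :=
    simple_root (p := p) hMop hSne h5 (lt_of_le_of_lt (natDegree_SS_le n) (by omega)) hS hA
  have hev : ∀ F : R[X], φ (F.eval c) = (F.map φ).eval (φ c) := fun F ↦ by
    rw [eval_map, eval₂_at_apply]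
  have hsq : derivative ((SS κ n) ^ 2) = C 2 * SS κ n * derivative (SS κ n) := by
    rw [derivative_pow]; simp
  -- `P(c) ≡ 0`
  have hα : (p : R) ∣ P.eval c := by
    rw [← hφ, hev, hmap, eval_pow, hS]; simp
  -- `P'(c) ≡ 0`
  have hβ : (p : R) ∣ (derivative P).eval c := by
    rw [← hφ, hev, ← derivative_map, hmap, hsq]
    simp [hS]
  have hℓ : (p : R) ∣ (ell P).eval c := by
    have : (ell P).eval c = (3456 - 5 * c) * P.eval c - 6 * (AA R).eval c * (derivative P).eval c := by
      simp [ell]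
    rw [this]
    exact dvd_sub (Dvd.dvd.mul_left hα _) (Dvd.dvd.mul_left hβ _)
  -- `ℓ'(c)` is a unit mod `p`
  have hl1 : φ ((derivative (ell P)).eval c) = -12 * (AA κ).eval (φ c) *
      ((derivative (SS κ n)).eval (φ c)) ^ 2 := by
    rw [hev, ← derivative_map, map_ell, hmap]
    have hell : ell ((SS κ n) ^ 2) = (C 3456 - C 5 * X) * (SS κ n) ^ 2
        - C 12 * AA κ * SS κ n * derivative (SS κ n) := by
      rw [ell, hsq]
      have : (C 12 : κ[X]) = C 6 * C 2 := by rw [← C_mul]; norm_num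
      rw [this]; ring
    rw [hell, derivative_sub, derivative_mul, derivative_mul, derivative_mul, hsq]
    simp only [eval_sub, eval_add, eval_mul, eval_pow, hS, eval_C]
    ring
  have hu : ¬ (p : R) ∣ -(12 * (AA R).eval c * (derivative (ell P)).eval c) := by
    rw [dvd_neg, ← hφ, map_mul, map_mul, hl1, hev, map_AA]
    have h12 : φ 12 = 12 := map_ofNat φ 12
    have h12' : (12 : κ) ≠ 0 := by
      rw [show (12 : κ) = 2 ^ 2 * 3 by norm_num]
      exact mul_ne_zero (pow_ne_zero _ h2κ) h3κ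
    rw [h12]
    refine mul_ne_zero (mul_ne_zero h12' hA) (mul_ne_zero (mul_ne_zero ?_ hA) (pow_ne_zero 2 hS'))
    rw [neg_ne_zero]; exact h12'
  -- `w(c) ≡ 0 mod p²`
  have hw : (p : R) ^ 2 ∣ (ww P).eval c := by
    rw [eval_eq_sum_range]
    exact Finset.dvd_sum fun i _ ↦ Dvd.dvd.mul_right (dvd_coeff_ww φ hφ hpp hcard h5 ht i) _
  have hweq : (ww P).eval c = (AA R).eval c * (P.eval c) ^ 2
      + (-(12 * (AA R).eval c * (derivative (ell P)).eval c)) * P.eval c - (ell P).eval c ^ 2 := by
    simp only [ww, eval_sub, eval_mul, eval_pow, eval_C]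
    ring
  have h1 : (p : R) ^ 2 ∣ (-(12 * (AA R).eval c * (derivative (ell P)).eval c)) * P.eval c := by
    have h2 : (p : R) ^ 2 ∣ (AA R).eval c * (P.eval c) ^ 2 :=
      Dvd.dvd.mul_left (pow_dvd_pow_of_dvd hα 2) _
    have h3 : (p : R) ^ 2 ∣ (ell P).eval c ^ 2 := pow_dvd_pow_of_dvd hℓ 2
    have h4 : (-(12 * (AA R).eval c * (derivative (ell P)).eval c)) * P.eval c =
        (ww P).eval c - (AA R).eval c * (P.eval c) ^ 2 + (ell P).eval c ^ 2 := by
      rw [hweq]; ring
    rw [h4]
    exact dvd_add (dvd_sub hw h2) h3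
  exact hpp.pow_dvd_of_dvd_mul_left 2 hu h1

end main

end Pool.Agent.H92
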