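import Mathlib

open Polynomial

noncomputable section

namespace Pool.Agent.H92

variable {R : Type*} [CommRing R]

/-- `X (X - 1728)` -/
def AA (R : Type*) [CommRing R] : R[X] := X * (X - C 1728)

/-- six times the Serre derivative of `f₁ F(j)` in terms of `F` -/
def ell (F : R[X]) : R[X] := (C 3456 - C 5 * X) * F - C 6 * AA R * derivative F

/-- `216` times the third order operator coming from Bol's identity -/
def Lop (F : R[X]) : R[X] :=
  C 36 * AA R * derivative (derivative (ell F)) + C 6 * (C 7 * X - C 6912) * derivative (ell F)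
    + ell F - (X - C 1728) * F

/-- the first integral of `Lop` -/
def ww (F : R[X]) : R[X] :=
  AA R * F ^ 2 - C 12 * AA R * F * derivative (ell F) - ell F ^ 2

lemma derivative_ww (F : R[X]) : C 3 * derivative (ww F) = - F * Lop F := by
  have hA : derivative (AA R) = C 2 * X - C 1728 := by
    simp only [AA, derivative_mul, derivative_X, map_sub, derivative_C]
    simp only [C_ofNat]; ring
  have h2 : ∀ G : R[X], derivative (G ^ 2) = C 2 * G * derivative G := by
    intro G; rw [derivative_pow]; simp
  have hell : ell F = (C 3456 - C 5 * X) * F - C 6 * AA R * derivative F := rfl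
  rw [ww, Lop]
  simp only [derivative_sub, derivative_mul, derivative_C, h2, hA]
  generalize derivative (derivative (ell F)) = l2
  generalize derivative (ell F) = l1
  generalize derivative F = F1 at *
  generalize ell F = l at *
  generalize AA R = A at *
  simp only [C_ofNat] at *
  subst hell
  ring

lemma coeff_ell_succ (F : R[X]) (k : ℕ) : (ell F).coeff (k + 1) =
    (3456 + 10368 * (k + 1)) * F.coeff (k + 1) - (5 + 6 * k) * F.coeff k := by
  have : ell F = C 3456 * F - C 5 * (X * F) - C 6 * (X * (X * derivative F)) +
      C 10368 * (X * derivative F) := by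
    rw [ell, AA]
    have : (C (10368 : R)) = C 6 * C 1728 := by rw [← C_mul]; norm_num
    rw [this]
    ring
  rw [this]
  simp only [coeff_add, coeff_sub, coeff_C_mul, coeff_X_mul, coeff_derivative]
  rcases k with _ | k
  · simp [coeff_derivative]
    ring
  · simp only [coeff_X_mul, coeff_derivative]
    push_cast
    ring

lemma coeff_ell_zero (F : R[X]) : (ell F).coeff 0 = 3456 * F.coeff 0 := by
  simp [ell, AA, mul_assoc, mul_coeff_zero]

/-- the coefficients of `Lop F` -/
lemma coeff_Lop_succ (F : R[X]) (k : ℕ) : (Lop F).coeff (k + 1) =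
    -216 * ((k : R) + 1) ^ 3 * F.coeff k
    + 5184 * (2 * ((k : R) + 1) + 1) * (72 * ((k : R) + 1) ^ 2 + 72 * ((k : R) + 1) + 41)
      * F.coeff (k + 1)
    - 71663616 * ((k : R) + 1 + 1) * (9 * ((k : R) + 1 + 1) ^ 2 - 1) * F.coeff (k + 2) := by
  have h : Lop F = C 36 * (X * (X * derivative (derivative (ell F)))) -
      C 62208 * (X * derivative (derivative (ell F))) + C 42 * (X * derivative (ell F))
      - C 41472 * derivative (ell F) + ell F - X * F + C 1728 * F := by
    rw [Lop, AA]
    have h1 : (C (62208 : R)) = C 36 * C 1728 := by rw [← C_mul]; norm_num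
    have h2 : (C (41472 : R)) = C 6 * C 6912 := by rw [← C_mul]; norm_num
    have h3 : (C (42 : R)) = C 6 * C 7 := by rw [← C_mul]; norm_num
    rw [h1, h2, h3]
    ring
  rw [h]
  simp only [coeff_add, coeff_sub, coeff_C_mul, coeff_X_mul, coeff_derivative, coeff_ell_succ]
  rcases k with _ | k
  · simp [coeff_derivative, coeff_ell_succ]
    ring
  · simp only [coeff_X_mul, coeff_derivative, coeff_ell_succ]
    push_cast
    ring

lemma coeff_Lop_zero (F : R[X]) : (Lop F).coeff 0 =
    5184 * 41 * F.coeff 0 - 71663616 * 8 * F.coeff 1 := by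
  rw [Lop, AA]
  simp [mul_coeff_zero, coeff_derivative, coeff_ell_succ, coeff_ell_zero, mul_assoc]
  ring

end Pool.Agent.H92
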