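import Pool.Agent.H92.BolSeries
import Pool.Agent.H92.PolyOp

open PowerSeries

noncomputable section

namespace Pool.Agent.H92

variable {R : Type*} [CommRing R]

/-- `[q^p] (E₄ t^{m+1})` -/
def cc (t : PowerSeries R) (p m : ℕ) : R := coeff p (E4s R * t ^ (m + 1))

/-- the polynomial `P_p(X) = [q^p] E₄ / (j - X)`, with `t = 1/j` -/
def PP (t : PowerSeries R) (p : ℕ) : Polynomial R :=
  ∑ m ∈ Finset.range p, Polynomial.monomial m (cc t p m)

lemma cc_eq_zero {t : PowerSeries R} (ht0 : constantCoeff t = 0) {p m : ℕ} (h : p ≤ m) :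
    cc t p m = 0 := by
  have h1 : (X : PowerSeries R) ∣ t := by
    rw [PowerSeries.X_dvd_iff]; exact ht0
  have h2 : (X : PowerSeries R) ^ (m + 1) ∣ E4s R * t ^ (m + 1) :=
    Dvd.dvd.mul_left (pow_dvd_pow_of_dvd h1 _) _
  rw [PowerSeries.X_pow_dvd_iff] at h2
  exact h2 p (by omega)

lemma coeff_PP {t : PowerSeries R} (ht0 : constantCoeff t = 0) (p k : ℕ) :
    (PP t p).coeff k = cc t p k := by
  rw [PP, Polynomial.finsetSum_coeff]
  simp only [Polynomial.coeff_monomial]
  rw [Finset.sum_ite_eq' (Finset.range p) k]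
  split_ifs with h
  · rfl
  · rw [Finset.mem_range, not_lt] at h
    exact (cc_eq_zero ht0 h).symm

lemma eval_PP {t : PowerSeries R} (p : ℕ) (c : R) :
    (PP t p).eval c = ∑ m ∈ Finset.range p, cc t p m * c ^ m := by
  simp [PP, Polynomial.eval_finsetSum, Polynomial.eval_monomial]

variable [IsDomain R] [CharZero R]

lemma t_const {t : PowerSeries R} (ht : 1728 * t * E4s R ^ 3 = E4s R ^ 3 - E6s R ^ 2) :
    constantCoeff t = 0 := by
  have := congrArg (constantCoeff (R := R)) ht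
  simp only [map_mul, map_pow, map_sub, constCoeff_E4s, constCoeff_E6s, map_ofNat] at this
  norm_num at this
  exact this

lemma bol_coeff {t : PowerSeries R} (ht : 1728 * t * E4s R ^ 3 = E4s R ^ 3 - E6s R ^ 2) (p k : ℕ) :
    216 * (p : R) ^ 3 * coeff p (E6s R * E4i R ^ 2 * t ^ k) =
      216 * (k : R) ^ 3 * coeff p (E4s R * t ^ k)
      - 5184 * (2 * (k : R) + 1) * (72 * (k : R) ^ 2 + 72 * (k : R) + 41) * cc t p k
      + 71663616 * ((k : R) + 1) * (9 * ((k : R) + 1) ^ 2 - 1) * cc t p (k + 1) := by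
  have h := congrArg (coeff p) (bol_series t ht k)
  have e1 : coeff p (216 * theta (theta (theta (E6s R * E4i R ^ 2 * t ^ k)))) =
      216 * (p : R) ^ 3 * coeff p (E6s R * E4i R ^ 2 * t ^ k) := by
    rw [show (216 : PowerSeries R) = C (216 : R) from (map_ofNat C 216).symm, coeff_C_mul]
    simp only [coeff_theta]
    ring
  rw [e1] at h
  rw [h, cc, cc]
  have e2 : E4s R * t ^ k * (216 * (k : PowerSeries R) ^ 3
      - 5184 * (2 * (k : PowerSeries R) + 1) * (72 * (k : PowerSeries R) ^ 2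
        + 72 * (k : PowerSeries R) + 41) * t
      + 71663616 * ((k : PowerSeries R) + 1) * (9 * ((k : PowerSeries R) + 1) ^ 2 - 1) * t ^ 2)
      = C (216 * (k : R) ^ 3) * (E4s R * t ^ k)
      - C (5184 * (2 * (k : R) + 1) * (72 * (k : R) ^ 2 + 72 * (k : R) + 41)) *
        (E4s R * t ^ (k + 1))
      + C (71663616 * ((k : R) + 1) * (9 * ((k : R) + 1) ^ 2 - 1)) * (E4s R * t ^ (k + 2)) := by
    simp only [map_mul, map_pow, map_add, map_sub, map_ofNat, map_natCast, map_one]
    ring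
  rw [e2]
  simp only [map_add, map_sub, coeff_C_mul]

theorem coeff_Lop_PP {t : PowerSeries R}
    (ht : 1728 * t * E4s R ^ 3 = E4s R ^ 3 - E6s R ^ 2) (p k : ℕ) :
    (Lop (PP t p)).coeff k = - (216 * (p : R) ^ 3 * coeff p (E6s R * E4i R ^ 2 * t ^ k)) := by
  have ht0 := t_const ht
  rw [bol_coeff ht]
  rcases k with _ | k
  · rw [coeff_Lop_zero, coeff_PP ht0, coeff_PP ht0]
    push_cast
    ring
  · rw [coeff_Lop_succ, coeff_PP ht0, coeff_PP ht0, coeff_PP ht0]
    push_cast
    rw [show cc t p k = coeff p (E4s R * t ^ (k + 1)) from rfl]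
    ring

end Pool.Agent.H92
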