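import Pool.Agent.H92.Eis

open UpperHalfPlane hiding I
open Complex Filter Topology ModularForm EisensteinSeries Derivative
open scoped MatrixGroups ModularForm Manifold ArithmeticFunction.sigma

noncomputable section

namespace Pool.Agent.H92

lemma constCoeff_theta {R : Type*} [CommSemiring R] (p : PowerSeries R) :
    PowerSeries.constantCoeff (theta p) = 0 := by
  rw [← PowerSeries.coeff_zero_eq_constantCoeff_apply, coeff_theta]; simp

lemma constCoeff_E2s (R : Type*) [CommRing R] : PowerSeries.constantCoeff (E2s R) = 1 := by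
  rw [← PowerSeries.coeff_zero_eq_constantCoeff_apply, coeff_E2s]; simp

lemma constCoeff_E4s (R : Type*) [CommRing R] : PowerSeries.constantCoeff (E4s R) = 1 := by
  rw [← PowerSeries.coeff_zero_eq_constantCoeff_apply, coeff_E4s]; simp

lemma constCoeff_E6s (R : Type*) [CommRing R] : PowerSeries.constantCoeff (E6s R) = 1 := by
  rw [← PowerSeries.coeff_zero_eq_constantCoeff_apply, coeff_E6s]; simp

lemma E4_ne_zero : (E₄ : ModularForm 𝒮ℒ 4) ≠ 0 := E_ne_zero _ ⟨2, rfl⟩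
lemma E6_ne_zero : (E₆ : ModularForm 𝒮ℒ 6) ≠ 0 := E_ne_zero _ ⟨3, rfl⟩

lemma hasQ_smul_mf {k : ℤ} (c : ℂ) (f : ModularForm 𝒮ℒ k) {p : PowerSeries ℂ} (h : HasQ f p) :
    HasQ ((c • f : ModularForm 𝒮ℒ k) : ℍ → ℂ) (c • p) := by
  have := h.smul c
  simpa using this

lemma rama4 : theta (E4s ℂ) - ((1 : ℂ) / 3) • (E2s ℂ * E4s ℂ) = (-(1 / 3) : ℂ) • E6s ℂ := by
  obtain ⟨c, hc⟩ : ∃ c : ℂ, c • (E₆ : ModularForm 𝒮ℒ 6) =
      ModularForm.mcast (by norm_num) (serreMF (k := 4) (E₄ : ModularForm 𝒮ℒ 4)) :=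
    (finrank_eq_one_iff_of_nonzero' _ E6_ne_zero).mp
      (Module.rank_eq_one_iff_finrank_eq_one.mp levelOne_weight_six_rank_one) _
  have h1 : HasQ ((c • (E₆ : ModularForm 𝒮ℒ 6) : ModularForm 𝒮ℒ 6) : ℍ → ℂ) (c • E6s ℂ) :=
    hasQ_smul_mf c _ hasQ_E6
  have h2 : HasQ ((c • (E₆ : ModularForm 𝒮ℒ 6) : ModularForm 𝒮ℒ 6) : ℍ → ℂ)
      (theta (E4s ℂ) - (((4 : ℕ) : ℂ) / 12) • (E2s ℂ * E4s ℂ)) := by
    rw [hc]
    exact hasQ_serre (k := 4) hasQ_E4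
  have h3 := (qExpansion_eq_of_hasQ _ h1).symm.trans (qExpansion_eq_of_hasQ _ h2)
  have h4 := congrArg (PowerSeries.constantCoeff (R := ℂ)) h3
  simp only [map_sub, constCoeff_theta, PowerSeries.constantCoeff_smul, map_mul, constCoeff_E2s,
    constCoeff_E4s, constCoeff_E6s, smul_eq_mul] at h4
  norm_num at h4
  rw [h4] at h3
  rw [show ((1 : ℂ) / 3) = (((4 : ℕ) : ℂ) / 12) by norm_num, ← h3]
  norm_num

lemma rank_weight_eight : Module.rank ℂ (ModularForm 𝒮ℒ (8 : ℤ)) = 1 := by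
  have := dimension_level_one 8 ⟨4, rfl⟩
  simpa [Nat.ModEq] using this

/-- `E₄²` as a form of weight 8 -/
def E4sq : ModularForm 𝒮ℒ 8 := ModularForm.mcast (by norm_num) ((E₄ : ModularForm 𝒮ℒ 4).mul E₄)

lemma hasQ_E4sq : HasQ E4sq (E4s ℂ * E4s ℂ) := hasQ_E4.mul hasQ_E4

lemma E4sq_ne_zero : E4sq ≠ 0 := by
  intro h
  have h1 := qExpansion_eq_of_hasQ _ hasQ_E4sq
  rw [h] at h1
  have h4 := congrArg (PowerSeries.constantCoeff (R := ℂ)) h1
  simp only [map_mul, constCoeff_E4s] at h4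
  have h5 : qExpansion 1 (0 : ModularForm 𝒮ℒ 8) = 0 := by
    simpa using UpperHalfPlane.qExpansion_zero 1
  rw [h5] at h4
  simp at h4

lemma rama6 : theta (E6s ℂ) - ((1 : ℂ) / 2) • (E2s ℂ * E6s ℂ) =
    (-(1 / 2) : ℂ) • (E4s ℂ * E4s ℂ) := by
  obtain ⟨c, hc⟩ : ∃ c : ℂ, c • E4sq =
      ModularForm.mcast (by norm_num) (serreMF (k := 6) (E₆ : ModularForm 𝒮ℒ 6)) :=
    (finrank_eq_one_iff_of_nonzero' _ E4sq_ne_zero).mp
      (Module.rank_eq_one_iff_finrank_eq_one.mp rank_weight_eight) _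
  have h1 : HasQ ((c • E4sq : ModularForm 𝒮ℒ 8) : ℍ → ℂ) (c • (E4s ℂ * E4s ℂ)) :=
    hasQ_smul_mf c _ hasQ_E4sq
  have h2 : HasQ ((c • E4sq : ModularForm 𝒮ℒ 8) : ℍ → ℂ)
      (theta (E6s ℂ) - (((6 : ℕ) : ℂ) / 12) • (E2s ℂ * E6s ℂ)) := by
    rw [hc]
    exact hasQ_serre (k := 6) hasQ_E6
  have h3 := (qExpansion_eq_of_hasQ _ h1).symm.trans (qExpansion_eq_of_hasQ _ h2)
  have h4 := congrArg (PowerSeries.constantCoeff (R := ℂ)) h3
  simp only [map_sub, constCoeff_theta, PowerSeries.constantCoeff_smul, map_mul, constCoeff_E2s,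
    constCoeff_E4s, constCoeff_E6s, smul_eq_mul] at h4
  norm_num at h4
  rw [h4] at h3
  rw [show ((1 : ℂ) / 2) = (((6 : ℕ) : ℂ) / 12) by norm_num, ← h3]
  norm_num

end Pool.Agent.H92
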