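import Pool.Agent.H92.Rama46

open UpperHalfPlane hiding I
open Complex Filter Topology ModularForm EisensteinSeries Derivative
open scoped MatrixGroups ModularForm Manifold ArithmeticFunction.sigma

noncomputable section

namespace Pool.Agent.H92

lemma D2_mdiff (γ : SL(2, ℤ)) : MDiff (D2 γ) := by
  have h : D2 γ = fun z : ℍ ↦ (2 * Real.pi * I * γ 1 0) * (denom γ z) ^ (-1 : ℤ) := by
    ext z
    simp [D2, div_eq_mul_inv]
  rw [h, UpperHalfPlane.mdifferentiable_iff]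
  intro z hz
  have h1 := ((hasDerivAt_denom_zpow (γ : GL (Fin 2) ℝ) (-1) ⟨z, hz⟩).const_mul
    (2 * Real.pi * I * γ 1 0 : ℂ))
  refine (h1.differentiableAt.differentiableWithinAt).congr_of_eventuallyEq ?_ ?_
  · filter_upwards [self_mem_nhdsWithin] with w hw
    simp [ofComplex_apply_of_im_pos hw]
  · simp [ofComplex_apply_of_im_pos hz]

lemma deriv_D2 (γ : SL(2, ℤ)) (z : ℍ) :
    normalizedDerivOfComplex (D2 γ) z = - ((γ 1 0 : ℂ) / denom γ z) ^ 2 := by
  have hEq : (D2 γ ∘ ofComplex) =ᶠ[𝓝 (z : ℂ)]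
      fun w ↦ (2 * Real.pi * I * γ 1 0) * (denom γ w) ^ (-1 : ℤ) := by
    filter_upwards [isOpen_upperHalfPlaneSet.mem_nhds z.im_pos] with w hw
    simp [ofComplex_apply_of_im_pos hw, D2, div_eq_mul_inv]
  have h1 := ((hasDerivAt_denom_zpow (γ : GL (Fin 2) ℝ) (-1) z).const_mul
    (2 * Real.pi * I * γ 1 0 : ℂ))
  rw [normalizedDerivOfComplex, hEq.deriv_eq, h1.deriv]
  have h0 : (2 * Real.pi * I : ℂ) ≠ 0 := two_pi_I_ne_zero
  have hd := denom_ne_zero (γ : GL (Fin 2) ℝ) z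
  have e1 : ((-1 : ℤ) - 1 : ℤ) = -2 := by norm_num
  rw [e1, zpow_neg]
  have e2 : ((γ : GL (Fin 2) ℝ) 1 0 : ℂ) = (γ 1 0 : ℂ) := by simp
  rw [e2, zpow_ofNat]
  field_simp
  push_cast
  ring

/-- the weight four form `D E₂ - E₂²/12` -/
def F2 : ℍ → ℂ := normalizedDerivOfComplex E2 - ((1 : ℂ) / 12) • (E2 * E2)

lemma hasQ_F2 : HasQ F2 (theta (E2s ℂ) - ((1 : ℂ) / 12) • (E2s ℂ * E2s ℂ)) :=
  hasQ_E2.deriv.sub ((hasQ_E2.mul hasQ_E2).smul _)

lemma F2_mdiff : MDiff F2 := by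
  refine (normalizedDerivOfComplex_mdifferentiable E2_mdifferentiable).sub ?_
  exact (E2_mdifferentiable.mul E2_mdifferentiable).const_smul _

lemma F2_slash (γ : SL(2, ℤ)) : F2 ∣[(4 : ℤ)] γ = F2 := by
  ext z
  have hE := E2_slash_action γ
  have hκ : (1 / (2 * riemannZeta 2) : ℂ) = 3 / (Real.pi : ℂ) ^ 2 := by
    rw [riemannZeta_two]
    have : (Real.pi : ℂ) ≠ 0 := by exact_mod_cast Real.pi_ne_zero
    field_simp
    norm_num
  have h1 := congrFun (normalizedDerivOfComplex_SL_slash (k := 2) E2_mdifferentiable (γ := γ)) z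
  have hDE : normalizedDerivOfComplex (E2 ∣[(2 : ℤ)] γ) =
      normalizedDerivOfComplex E2 - (3 / (Real.pi : ℂ) ^ 2) • normalizedDerivOfComplex (D2 γ) := by
    rw [hE, hκ, normalizedDerivOfComplex_sub _ _ E2_mdifferentiable ((D2_mdiff γ).const_smul _),
      normalizedDerivOfComplex_smul _ _ (D2_mdiff γ)]
  rw [hDE] at h1
  simp only [Pi.sub_apply, Pi.smul_apply, smul_eq_mul, deriv_D2] at h1
  have h2 : (F2 ∣[(4 : ℤ)] γ) z = (normalizedDerivOfComplex E2 ∣[(4 : ℤ)] γ) z -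
      (1 / 12) * ((E2 ∣[(2 : ℤ)] γ) z * (E2 ∣[(2 : ℤ)] γ) z) := by
    have h3 := congrFun (ModularForm.mul_slash_SL2 2 2 γ E2 E2) z
    simp only [Pi.mul_apply] at h3
    rw [← h3]
    simp [F2, SL_slash_apply, sub_mul, mul_assoc]
  have h4 : (E2 ∣[(2 : ℤ)] γ) z = E2 z - (3 / (Real.pi : ℂ) ^ 2) * D2 γ z := by
    rw [hE, hκ]
    simp
  rw [h2, h4]
  rw [h4] at h1
  have h5 : (normalizedDerivOfComplex E2 ∣[(4 : ℤ)] γ) z =
    (normalizedDerivOfComplex E2 ∣[(2 + 2 : ℤ)] γ) z := by norm_num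
  rw [h5]
  have hF : F2 z = normalizedDerivOfComplex E2 z - (1 / 12) * (E2 z * E2 z) := by
    simp [F2]
  rw [hF]
  have hD2 : D2 γ z = (2 * Real.pi * I) * ((γ 1 0 : ℂ) / denom γ z) := by
    simp [D2]; ring
  rw [hD2]
  rw [hD2] at h1
  generalize (γ 1 0 : ℂ) / denom γ z = μ at h1 ⊢
  have hpi : (Real.pi : ℂ) ≠ 0 := by exact_mod_cast Real.pi_ne_zero
  have hI : I ^ 2 = -1 := I_sq
  have h6 : (normalizedDerivOfComplex E2 ∣[(2 + 2 : ℤ)] γ) z =
      normalizedDerivOfComplex E2 z - 3 / (Real.pi : ℂ) ^ 2 * -μ ^ 2 +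
        2 * (2 * Real.pi * I)⁻¹ * μ * (E2 z - 3 / (Real.pi : ℂ) ^ 2 * (2 * Real.pi * I * μ)) := by
    have h1' : (normalizedDerivOfComplex E2 ∣[(2 + 2 : ℤ)] γ) z =
      normalizedDerivOfComplex E2 z - 3 / (Real.pi : ℂ) ^ 2 * -μ ^ 2 +
        ((2 : ℤ) : ℂ) * (2 * Real.pi * I)⁻¹ * μ *
          (E2 z - 3 / (Real.pi : ℂ) ^ 2 * (2 * Real.pi * I * μ)) := by
      rw [h1]; ring
    rw [h1']
    push_cast
    ring
  rw [h6]
  have hII : I ≠ 0 := I_ne_zero
  field_simp
  ring_nf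
  simp only [hI, show I ^ 3 = -I by rw [pow_succ, hI]; ring]
  ring

lemma rama2 : theta (E2s ℂ) - ((1 : ℂ) / 12) • (E2s ℂ * E2s ℂ) = (-(1 / 12) : ℂ) • E4s ℂ := by
  obtain ⟨c, hc⟩ : ∃ c : ℂ, c • (E₄ : ModularForm 𝒮ℒ 4) = mkMF F2 F2_mdiff F2_slash hasQ_F2.bdd :=
    (finrank_eq_one_iff_of_nonzero' _ E4_ne_zero).mp
      (Module.rank_eq_one_iff_finrank_eq_one.mp levelOne_weight_four_rank_one) _
  have h1 : HasQ ((c • (E₄ : ModularForm 𝒮ℒ 4) : ModularForm 𝒮ℒ 4) : ℍ → ℂ) (c • E4s ℂ) :=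
    hasQ_smul_mf c _ hasQ_E4
  have h2 : HasQ ((c • (E₄ : ModularForm 𝒮ℒ 4) : ModularForm 𝒮ℒ 4) : ℍ → ℂ)
      (theta (E2s ℂ) - ((1 : ℂ) / 12) • (E2s ℂ * E2s ℂ)) := by
    rw [hc]
    exact hasQ_F2
  have h3 := (qExpansion_eq_of_hasQ _ h1).symm.trans (qExpansion_eq_of_hasQ _ h2)
  have h4 := congrArg (PowerSeries.constantCoeff (R := ℂ)) h3
  simp only [map_sub, constCoeff_theta, PowerSeries.constantCoeff_smul, map_mul, constCoeff_E2s,
    constCoeff_E4s, smul_eq_mul] at h4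
  norm_num at h4
  rw [h4] at h3
  rw [← h3]

lemma map_theta {R S : Type*} [CommRing R] [CommRing S] (f : R →+* S) (p : PowerSeries R) :
    PowerSeries.map f (theta p) = theta (PowerSeries.map f p) := by
  ext n; simp

lemma map_E2s {R S : Type*} [CommRing R] [CommRing S] (f : R →+* S) :
    PowerSeries.map f (E2s R) = E2s S := by
  ext n
  rw [PowerSeries.coeff_map, coeff_E2s, coeff_E2s]
  split_ifs <;> simp [map_ofNat]

lemma map_E4s {R S : Type*} [CommRing R] [CommRing S] (f : R →+* S) :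
    PowerSeries.map f (E4s R) = E4s S := by
  ext n
  rw [PowerSeries.coeff_map, coeff_E4s, coeff_E4s]
  split_ifs <;> simp [map_ofNat]

lemma map_E6s {R S : Type*} [CommRing R] [CommRing S] (f : R →+* S) :
    PowerSeries.map f (E6s R) = E6s S := by
  ext n
  rw [PowerSeries.coeff_map, coeff_E6s, coeff_E6s]
  split_ifs <;> simp [map_ofNat]

lemma theta_mul {R : Type*} [CommRing R] (p r : PowerSeries R) :
    theta (p * r) = theta p * r + p * theta r := by
  ext n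
  simp only [coeff_theta, map_add, PowerSeries.coeff_mul, Finset.mul_sum, ← Finset.sum_add_distrib]
  refine Finset.sum_congr rfl fun kl hkl ↦ ?_
  rw [← Finset.HasAntidiagonal.mem_antidiagonal.mp hkl]
  push_cast
  ring

lemma theta_add {R : Type*} [CommRing R] (p r : PowerSeries R) :
    theta (p + r) = theta p + theta r := by
  ext n; simp [mul_add]

/-- `q d/dq` as a derivation -/
def thetaD (R : Type*) [CommRing R] : Derivation R (PowerSeries R) (PowerSeries R) :=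
  Derivation.mk'
    { toFun := theta
      map_add' := theta_add
      map_smul' := fun c p ↦ by ext n; simp; ring }
    (fun p r ↦ by
      change theta (p * r) = p • theta r + r • theta p
      rw [theta_mul, smul_eq_mul, smul_eq_mul]; ring)

lemma thetaD_apply {R : Type*} [CommRing R] (p : PowerSeries R) : thetaD R p = theta p := rfl

theorem ramanujan_two (R : Type*) [CommRing R] :
    12 * theta (E2s R) = E2s R ^ 2 - E4s R := by
  have hC : 12 * theta (E2s ℂ) = E2s ℂ ^ 2 - E4s ℂ := by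
    have h := rama2
    simp only [PowerSeries.smul_eq_C_mul] at h
    have h12 : (12 : PowerSeries ℂ) = PowerSeries.C (12 : ℂ) := (map_ofNat PowerSeries.C 12).symm
    have e1 : (12 : PowerSeries ℂ) * PowerSeries.C ((1 : ℂ) / 12) = 1 := by
      rw [h12, ← map_mul]; norm_num
    have e2 : (12 : PowerSeries ℂ) * PowerSeries.C (-(1 / 12) : ℂ) = -1 := by
      rw [h12, ← map_mul]; norm_num
    linear_combination 12 * h + (E2s ℂ * E2s ℂ) * e1 + E4s ℂ * e2
  have hZ : 12 * theta (E2s ℤ) = E2s ℤ ^ 2 - E4s ℤ := by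
    apply PowerSeries.map_injective (Int.castRingHom ℂ) Int.cast_injective
    simpa [map_theta, map_E2s, map_E4s, map_ofNat] using hC
  have := congrArg (PowerSeries.map (Int.castRingHom R)) hZ
  simpa [map_theta, map_E2s, map_E4s, map_ofNat] using this

theorem ramanujan_four (R : Type*) [CommRing R] :
    3 * theta (E4s R) = E2s R * E4s R - E6s R := by
  have hC : 3 * theta (E4s ℂ) = E2s ℂ * E4s ℂ - E6s ℂ := by
    have h := rama4
    simp only [PowerSeries.smul_eq_C_mul] at h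
    have h12 : (3 : PowerSeries ℂ) = PowerSeries.C (3 : ℂ) := (map_ofNat PowerSeries.C 3).symm
    have e1 : (3 : PowerSeries ℂ) * PowerSeries.C ((1 : ℂ) / 3) = 1 := by
      rw [h12, ← map_mul]; norm_num
    have e2 : (3 : PowerSeries ℂ) * PowerSeries.C (-(1 / 3) : ℂ) = -1 := by
      rw [h12, ← map_mul]; norm_num
    linear_combination 3 * h + (E2s ℂ * E4s ℂ) * e1 + E6s ℂ * e2
  have hZ : 3 * theta (E4s ℤ) = E2s ℤ * E4s ℤ - E6s ℤ := by
    apply PowerSeries.map_injective (Int.castRingHom ℂ) Int.cast_injective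
    simpa [map_theta, map_E2s, map_E4s, map_E6s, map_ofNat] using hC
  have := congrArg (PowerSeries.map (Int.castRingHom R)) hZ
  simpa [map_theta, map_E2s, map_E4s, map_E6s, map_ofNat] using this

theorem ramanujan_six (R : Type*) [CommRing R] :
    2 * theta (E6s R) = E2s R * E6s R - E4s R ^ 2 := by
  have hC : 2 * theta (E6s ℂ) = E2s ℂ * E6s ℂ - E4s ℂ ^ 2 := by
    have h := rama6
    simp only [PowerSeries.smul_eq_C_mul] at h
    have h12 : (2 : PowerSeries ℂ) = PowerSeries.C (2 : ℂ) := (map_ofNat PowerSeries.C 2).symm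
    have e1 : (2 : PowerSeries ℂ) * PowerSeries.C ((1 : ℂ) / 2) = 1 := by
      rw [h12, ← map_mul]; norm_num
    have e2 : (2 : PowerSeries ℂ) * PowerSeries.C (-(1 / 2) : ℂ) = -1 := by
      rw [h12, ← map_mul]; norm_num
    linear_combination 2 * h + (E2s ℂ * E6s ℂ) * e1 + (E4s ℂ * E4s ℂ) * e2
  have hZ : 2 * theta (E6s ℤ) = E2s ℤ * E6s ℤ - E4s ℤ ^ 2 := by
    apply PowerSeries.map_injective (Int.castRingHom ℂ) Int.cast_injective
    simpa [map_theta, map_E2s, map_E4s, map_E6s, map_ofNat] using hC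
  have := congrArg (PowerSeries.map (Int.castRingHom R)) hZ
  simpa [map_theta, map_E2s, map_E4s, map_E6s, map_ofNat] using this

end Pool.Agent.H92
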