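import Pool.Agent.H92.MainCong

open PowerSeries

noncomputable section

namespace Pool.Agent.H92

/-! ### functoriality of `PP` -/

lemma map_cc {R S : Type*} [CommRing R] [CommRing S] (f : R →+* S) (t : PowerSeries R) (p m : ℕ) :
    f (cc t p m) = cc (t.map f) p m := by
  rw [cc, cc, ← PowerSeries.coeff_map, map_mul, map_pow, map_E4s]

lemma map_PP {R S : Type*} [CommRing R] [CommRing S] (f : R →+* S) (t : PowerSeries R) (p : ℕ) :
    (PP t p).map f = PP (t.map f) p := by
  rw [PP, PP, Polynomial.map_sum]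
  refine Finset.sum_congr rfl fun m _ ↦ ?_
  rw [Polynomial.map_monomial, map_cc]

lemma PP_eval_map {R S : Type*} [CommRing R] [CommRing S] (f : R →+* S) (t : PowerSeries R) (p : ℕ)
    (c : R) : f ((PP t p).eval c) = (PP (t.map f) p).eval (f c) := by
  rw [← map_PP, Polynomial.eval_map, Polynomial.eval₂_at_apply]

/-- the equation satisfied by `t = 1/j` -/
def IsT {R : Type*} [CommRing R] (t : PowerSeries R) : Prop :=
  1728 * t * E4s R ^ 3 = E4s R ^ 3 - E6s R ^ 2

lemma IsT.map {R S : Type*} [CommRing R] [CommRing S] (f : R →+* S) {t : PowerSeries R}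
    (h : IsT t) : IsT (t.map f) := by
  have := congrArg (PowerSeries.map f) h
  unfold IsT
  simpa [map_E4s, map_E6s, map_ofNat] using this

lemma IsT.unique {R : Type*} [CommRing R] [IsDomain R] [CharZero R] {t s : PowerSeries R}
    (h : IsT t) (h' : IsT s) : t = s := by
  have h1 : 1728 * E4s R ^ 3 * (t - s) = 0 := by
    rw [IsT] at h h'
    linear_combination h - h'
  have h2 : (1728 : PowerSeries R) * E4s R ^ 3 ≠ 0 := by
    refine mul_ne_zero ps1728 (pow_ne_zero _ ?_)
    intro h0
    have := constCoeff_E4s R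
    rw [h0] at this
    simp at this
  exact sub_eq_zero.mp ((mul_eq_zero.mp h1).resolve_left h2)

/-- the series `t = 1/j`, when `1728` is invertible with inverse `u` -/
def tt {R : Type*} [CommRing R] (u : R) : PowerSeries R :=
  C u * (E4s R ^ 3 - E6s R ^ 2) * E4i R ^ 3

lemma isT_tt {R : Type*} [CommRing R] {u : R} (hu : 1728 * u = 1) : IsT (tt u) := by
  have h1 := E4_mul_E4i R
  have h2 : (1728 : PowerSeries R) * C u = 1 := by
    rw [show (1728 : PowerSeries R) = C (1728 : R) from (map_ofNat C 1728).symm, ← map_mul, hu,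
      map_one]
  have h3 : E4s R ^ 3 * E4i R ^ 3 = 1 := by rw [← mul_pow, h1, one_pow]
  rw [IsT, tt]
  linear_combination (E4s R ^ 3 - E6s R ^ 2) * h2 * E4s R ^ 3 * E4i R ^ 3 +
    (E4s R ^ 3 - E6s R ^ 2) * h3

/-- the `p`-th coefficient of `E₄ t / (1 - c t)` -/
lemma coeff_geom {K : Type*} [Field K] {t : PowerSeries K} (ht0 : constantCoeff t = 0) (c : K)
    (p : ℕ) : coeff p (E4s K * t * (1 - C c * t)⁻¹) = (PP t p).eval c := by
  have hinv : (1 - C c * t) * (1 - C c * t)⁻¹ = 1 := by
    apply PowerSeries.mul_inv_cancel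
    simp [ht0]
  set v := (1 - C c * t)⁻¹ with hv
  clear_value v
  have hgeom : E4s K * t * v = ∑ m ∈ Finset.range p, C (c ^ m) * (E4s K * t ^ (m + 1)) +
      C (c ^ p) * (E4s K * t ^ (p + 1)) * v := by
    induction p with
    | zero => simp
    | succ n ih =>
      rw [ih, Finset.sum_range_succ, add_assoc]
      congr 1
      simp only [map_pow]
      linear_combination (C c ^ n * E4s K * t ^ (n + 1)) * hinv
  rw [hgeom, map_add, map_sum, eval_PP]
  have hlast : coeff p (C (c ^ p) * (E4s K * t ^ (p + 1)) * v) = 0 := by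
    have h1 : (X : PowerSeries K) ∣ t := by
      rw [PowerSeries.X_dvd_iff]; exact ht0
    have h2 : (X : PowerSeries K) ^ (p + 1) ∣ C (c ^ p) * (E4s K * t ^ (p + 1)) * v :=
      Dvd.dvd.mul_right (Dvd.dvd.mul_left (Dvd.dvd.mul_left (pow_dvd_pow_of_dvd h1 _) _) _) _
    rw [PowerSeries.X_pow_dvd_iff] at h2
    exact h2 p (by omega)
  rw [hlast, add_zero]
  refine Finset.sum_congr rfl fun m _ ↦ ?_
  rw [coeff_C_mul, cc, mul_comm]

end Pool.Agent.H92
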