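import Mathlib

/-!
# Definitions for the supersingular congruence of `E₄ / (j - j(C))`
-/

open ArithmeticFunction.sigma
open WeierstrassCurve

noncomputable section

namespace Pool.Agent.H92.Supersingular

/-- `E₄ = 1 + 240 ∑ σ₃(n) qⁿ`. -/
def E4 : LaurentSeries ℚ :=
  HahnSeries.ofPowerSeries ℤ ℚ (1 + 240 * PowerSeries.mk fun n ↦ ((σ 3 n : ℕ) : ℚ))

/-- `E₆ = 1 - 504 ∑ σ₅(n) qⁿ`. -/
def E6 : LaurentSeries ℚ :=
  HahnSeries.ofPowerSeries ℤ ℚ (1 - 504 * PowerSeries.mk fun n ↦ ((σ 5 n : ℕ) : ℚ))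

/-- The modular invariant `j = 1728 E₄³ / (E₄³ - E₆²) = q⁻¹ + 744 + 196884 q + ⋯`. -/
def jSeries : LaurentSeries ℚ := 1728 * E4 ^ 3 / (E4 ^ 3 - E6 ^ 2)

/-- `F_C = E₄ / (j - j(C))`, as a Laurent series in `q`. -/
def F (C : WeierstrassCurve ℚ) [C.IsElliptic] : LaurentSeries ℚ :=
  E4 / (jSeries - HahnSeries.C C.j)

/-- A minimal Weierstrass equation of `C` over `ℤ_p`. -/
def localModel (C : WeierstrassCurve ℚ) (p : ℕ) [Fact p.Prime] : WeierstrassCurve ℚ_[p] :=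
  (C.map (algebraMap ℚ ℚ_[p])).minimal ℤ_[p]

instance (C : WeierstrassCurve ℚ) (p : ℕ) [Fact p.Prime] : IsMinimal ℤ_[p] (localModel C p) :=
  inferInstanceAs (IsMinimal ℤ_[p] ((C.map (algebraMap ℚ ℚ_[p])).minimal ℤ_[p]))

/-- `a_p(C) = p + 1 - |C(𝔽_p)|`, where `C(𝔽_p)` are the points of the reduced curve. -/
def frobeniusTrace (C : WeierstrassCurve ℚ) (p : ℕ) [Fact p.Prime] : ℤ :=
  (p : ℤ) + 1 - Nat.card ((localModel C p).reduction ℤ_[p]).toAffine.Point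

/-- `p` is a prime of good reduction of `C` with `p ∣ a_p(C)`. -/
def IsSupersingularPrime (C : WeierstrassCurve ℚ) (p : ℕ) [Fact p.Prime] : Prop :=
  (localModel C p).HasGoodReduction ℤ_[p] ∧ (p : ℤ) ∣ frobeniusTrace C p

end Pool.Agent.H92.Supersingular
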