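import Pool.Agent.H92.Series
import Pool.Agent.H92.Count
import Pool.Agent.H92.SupersingularDefs

/-!
# The supersingular congruence for `E₄ / (j - j(C))`
-/

open ArithmeticFunction.sigma
open WeierstrassCurve

noncomputable section

namespace Pool.Agent.H92.Supersingular

section proof

open Pool.Agent.H92

lemma E4_eq : E4 = HahnSeries.ofPowerSeries ℤ ℚ (E4s ℚ) := rfl

lemma E6_eq : E6 = HahnSeries.ofPowerSeries ℤ ℚ (E6s ℚ) := rfl

lemma F_eq (C : WeierstrassCurve ℚ) [C.IsElliptic] :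
    F C = HahnSeries.ofPowerSeries ℤ ℚ
      (E4s ℚ * tt (1 / 1728 : ℚ) * (1 - PowerSeries.C C.j * tt (1 / 1728 : ℚ))⁻¹) := by
  set t : PowerSeries ℚ := tt (1 / 1728 : ℚ) with htdef
  have hT : IsT t := isT_tt (by norm_num)
  have ht0 : PowerSeries.constantCoeff t = 0 := t_const hT
  have ht1 : PowerSeries.coeff 1 t = 1 := t_coeff_one hT
  have htne : t ≠ 0 := by
    intro h
    rw [h] at ht1
    simp at ht1
  have hinv : (1 - PowerSeries.C C.j * t) * (1 - PowerSeries.C C.j * t)⁻¹ = 1 := by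
    apply PowerSeries.mul_inv_cancel
    simp [ht0]
  have hinj : Function.Injective (HahnSeries.ofPowerSeries ℤ ℚ) :=
    HahnSeries.ofPowerSeries_injective
  clear_value t
  set ι := HahnSeries.ofPowerSeries ℤ ℚ with hι
  have hC : ι (PowerSeries.C C.j) = HahnSeries.C C.j := HahnSeries.ofPowerSeries_C _
  have hT' := congrArg ι hT
  simp only [map_mul, map_pow, map_sub, map_ofNat] at hT'
  have hinv' := congrArg ι hinv
  simp only [map_mul, map_sub, map_one, hC] at hinv'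
  have h4ne : ι (E4s ℚ) ≠ 0 := by
    intro h
    have : E4s ℚ = 0 := hinj (by rw [h, map_zero])
    have h1 := constCoeff_E4s ℚ
    rw [this] at h1
    simp at h1
  have htne' : ι t ≠ 0 := fun h ↦ htne (hinj (by rw [h, map_zero]))
  have h1728 : (1728 : LaurentSeries ℚ) ≠ 0 := by
    intro h
    apply ps1728 (R := ℚ)
    apply hinj
    rw [map_ofNat, map_zero]
    exact h
  have hj : jSeries = (ι t)⁻¹ := by
    rw [jSeries, E4_eq, E6_eq, ← hι, ← hT']
    field_simp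
  have hden : jSeries - HahnSeries.C C.j = (ι t)⁻¹ * (1 - HahnSeries.C C.j * ι t) := by
    rw [hj]
    field_simp
  have h1ne : (1 - HahnSeries.C C.j * ι t) ≠ 0 := left_ne_zero_of_mul_eq_one hinv'
  rw [F, hden, E4_eq, map_mul, map_mul]
  rw [eq_comm, eq_div_iff (mul_ne_zero (inv_ne_zero htne') h1ne)]
  have : ι (E4s ℚ) * ι t * ι (1 - PowerSeries.C C.j * t)⁻¹ *
      ((ι t)⁻¹ * (1 - HahnSeries.C C.j * ι t)) =
      ι (E4s ℚ) * (ι t * (ι t)⁻¹) *
        ((1 - HahnSeries.C C.j * ι t) * ι (1 - PowerSeries.C C.j * t)⁻¹) := by ring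
  rw [this, hinv', mul_inv_cancel₀ htne', mul_one, mul_one]

lemma coeff_F (C : WeierstrassCurve ℚ) [C.IsElliptic] (p : ℕ) :
    (F C).coeff (p : ℤ) = (PP (tt (1 / 1728 : ℚ)) p).eval C.j := by
  rw [F_eq, HahnSeries.ofPowerSeries_apply_coeff]
  exact coeff_geom (t_const (isT_tt (by norm_num))) _ _

section padic

variable {p : ℕ} [hp : Fact p.Prime]

lemma residue_eq_zero_iff_dvd (x : ℤ_[p]) :
    IsLocalRing.residue ℤ_[p] x = 0 ↔ (p : ℤ_[p]) ∣ x := by
  rw [IsLocalRing.residue_eq_zero_iff, PadicInt.maximalIdeal_eq_span_p, Ideal.mem_span_singleton]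

instance : Finite (IsLocalRing.ResidueField ℤ_[p]) :=
  Finite.of_equiv _ (PadicInt.residueField (p := p)).symm.toEquiv

lemma card_residueField [Fintype (IsLocalRing.ResidueField ℤ_[p])] :
    Fintype.card (IsLocalRing.ResidueField ℤ_[p]) = p := by
  rw [Fintype.card_congr (PadicInt.residueField (p := p)).toEquiv, ZMod.card]

lemma prime_p_int : Prime (p : ℤ_[p]) := PadicInt.prime_p

/-- a rational number whose image in `ℚ_p` is `p²` times a `p`-adic integer -/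
lemma rat_of_padic {a : ℚ} {x : ℤ_[p]} (h : ((a : ℚ) : ℚ_[p]) = (p : ℚ_[p]) ^ 2 * (x : ℚ_[p])) :
    ∃ z : ℚ, ¬ p ∣ z.den ∧ a = (p : ℚ) ^ 2 * z := by
  have hp0 : (p : ℚ) ≠ 0 := by exact_mod_cast hp.out.ne_zero
  have hp0' : (p : ℚ_[p]) ≠ 0 := by exact_mod_cast hp.out.ne_zero
  refine ⟨a / (p : ℚ) ^ 2, ?_, by field_simp⟩
  have hz : (((a / (p : ℚ) ^ 2 : ℚ)) : ℚ_[p]) = (x : ℚ_[p]) := by
    push_cast
    rw [h]
    field_simp
  have hnorm : ‖(((a / (p : ℚ) ^ 2 : ℚ)) : ℚ_[p])‖ ≤ 1 := by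
    rw [hz]; exact x.2
  have hu := PadicInt.isUnit_den (p := p) _ hnorm
  intro hdvd
  have h1 : (p : ℤ_[p]) ∣ (((a / (p : ℚ) ^ 2).den : ℕ) : ℤ_[p]) := by
    exact_mod_cast Nat.cast_dvd_cast hdvd
  exact (prime_p_int (p := p)).not_isUnit (isUnit_of_dvd_unit h1 hu)

lemma localModel_j (C : WeierstrassCurve ℚ) [C.IsElliptic] :
    (localModel C p).Δ ≠ 0 ∧
      ((C.j : ℚ) : ℚ_[p]) * (localModel C p).Δ = (localModel C p).c₄ ^ 3 := by
  have hWj : (C.map (algebraMap ℚ ℚ_[p])).j = ((C.j : ℚ) : ℚ_[p]) := by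
    rw [map_j, eq_ratCast]
  set W : WeierstrassCurve ℚ_[p] := C.map (algebraMap ℚ ℚ_[p]) with hW
  set D := (W.exists_isMinimal ℤ_[p]).choose with hD
  have hM : localModel C p = D • W := rfl
  have hj : (D • W).j = W.j := variableChange_j W D
  rw [hM]
  have hΔ : (D • W).Δ ≠ 0 := (D • W).coe_Δ' ▸ (D • W).Δ'.ne_zero
  refine ⟨hΔ, ?_⟩
  rw [← hWj, ← hj, WeierstrassCurve.j, mul_assoc, mul_comm _ ((D • W).Δ), ← mul_assoc,
    ← (D • W).coe_Δ', Units.inv_mul, one_mul]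

lemma exists_padic_j (C : WeierstrassCurve ℚ) [C.IsElliptic]
    (hgood : (localModel C p).HasGoodReduction ℤ_[p]) :
    ((localModel C p).reduction ℤ_[p]).IsElliptic ∧
    ∃ c : ℤ_[p], (c : ℚ_[p]) = ((C.j : ℚ) : ℚ_[p]) ∧
      IsLocalRing.residue ℤ_[p] c * ((localModel C p).reduction ℤ_[p]).Δ =
        ((localModel C p).reduction ℤ_[p]).c₄ ^ 3 := by
  have hell := (hasGoodReduction_iff_isElliptic_reduction ℤ_[p]).mp hgood
  refine ⟨hell, ?_⟩
  set M := localModel C p with hM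
  set W₀ := integralModel ℤ_[p] M with hW₀
  have hΔ : (M.reduction ℤ_[p]).Δ = IsLocalRing.residue ℤ_[p] W₀.Δ := map_Δ _ _
  have hc₄ : (M.reduction ℤ_[p]).c₄ = IsLocalRing.residue ℤ_[p] W₀.c₄ := map_c₄ _ _
  have hne : (M.reduction ℤ_[p]).Δ ≠ 0 :=
    (M.reduction ℤ_[p]).coe_Δ' ▸ (M.reduction ℤ_[p]).Δ'.ne_zero
  have hu : IsUnit W₀.Δ := by
    rw [hΔ] at hne
    by_contra h
    exact hne ((IsLocalRing.residue_eq_zero_iff _).mpr ((IsLocalRing.mem_maximalIdeal _).mpr h))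
  obtain ⟨v, hv⟩ := hu.exists_right_inv
  obtain ⟨hMΔ, hMj⟩ := localModel_j (p := p) C
  refine ⟨W₀.c₄ ^ 3 * v, ?_, ?_⟩
  · have h1 : algebraMap ℤ_[p] ℚ_[p] W₀.Δ = M.Δ := integralModel_Δ_eq ℤ_[p] M
    have h2 : algebraMap ℤ_[p] ℚ_[p] W₀.c₄ = M.c₄ := integralModel_c₄_eq ℤ_[p] M
    have h3 := congrArg (algebraMap ℤ_[p] ℚ_[p]) hv
    rw [map_mul, map_one, h1] at h3
    have h4 : ((W₀.c₄ ^ 3 * v : ℤ_[p]) : ℚ_[p]) = M.c₄ ^ 3 * algebraMap ℤ_[p] ℚ_[p] v := by
      rw [← h2, ← map_pow, ← map_mul]; rfl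
    rw [h4, ← hMj]
    linear_combination ((C.j : ℚ) : ℚ_[p]) * h3
  · rw [hΔ, hc₄, ← map_mul, ← map_pow]
    congr 1
    linear_combination W₀.c₄ ^ 3 * hv

lemma residue_ne_zero_of_val {q : ℚ} (hq : q ≠ 0) (hv : padicValRat p q = 0) {x : ℤ_[p]}
    (hx : (x : ℚ_[p]) = ((q : ℚ) : ℚ_[p])) : IsLocalRing.residue ℤ_[p] x ≠ 0 := by
  rw [Ne, residue_eq_zero_iff_dvd, ← PadicInt.norm_lt_one_iff_dvd, PadicInt.norm_def, hx,
    Padic.eq_padicNorm, padicNorm.eq_zpow_of_nonzero hq, hv]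
  simp

end padic

end proof

/-- **Q1 holds.** For every elliptic curve `C/ℚ` with `j(C) ∉ {0, 1728}` and every supersingular
prime `p` of `C` with `v_p(j(C)) = 0 = v_p(j(C) - 1728)`, the `p`-th coefficient of
`F_C = E₄/(j - j(C))` is `p²` times a `p`-integral rational number. -/
theorem congruence (C : WeierstrassCurve ℚ) [C.IsElliptic] (hj0 : C.j ≠ 0) (hj1 : C.j ≠ 1728)
    (p : ℕ) [Fact p.Prime] (hss : IsSupersingularPrime C p)
    (hv0 : padicValRat p C.j = 0) (hv1 : padicValRat p (C.j - 1728) = 0) :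
    ∃ z : ℚ, ¬ p ∣ z.den ∧ (F C).coeff (p : ℤ) = (p : ℚ) ^ 2 * z := by
  classical
  have hp : p.Prime := Fact.out
  obtain ⟨hgood, hdvd⟩ := hss
  obtain ⟨hell, c, hc, hres⟩ := exists_padic_j C hgood
  have hc0 : IsLocalRing.residue ℤ_[p] c ≠ 0 := residue_ne_zero_of_val hj0 hv0 hc
  have hc1 : IsLocalRing.residue ℤ_[p] c ≠ 1728 := by
    have h17 : ((1728 : ℤ_[p]) : ℚ_[p]) = 1728 := by
      have := PadicInt.coe_natCast (p := p) 1728
      simpa using this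
    have h := residue_ne_zero_of_val (p := p) (sub_ne_zero.mpr hj1) hv1 (x := c - 1728) (by
      rw [PadicInt.coe_sub, h17, hc]
      push_cast
      ring)
    rw [map_sub, map_ofNat, sub_ne_zero] at h
    exact h
  let _ : Fintype (IsLocalRing.ResidueField ℤ_[p]) := Fintype.ofFinite _
  have hcard : Fintype.card (IsLocalRing.ResidueField ℤ_[p]) = p := card_residueField
  have hΔ : ((localModel C p).reduction ℤ_[p]).Δ ≠ 0 :=
    ((localModel C p).reduction ℤ_[p]).coe_Δ' ▸ ((localModel C p).reduction ℤ_[p]).Δ'.ne_zero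
  have hc₄ : ((localModel C p).reduction ℤ_[p]).c₄ ≠ 0 := by
    intro h
    rw [h, zero_pow (by norm_num)] at hres
    exact (mul_ne_zero hc0 hΔ) hres
  have h5 : 5 ≤ p := by
    rcases Nat.lt_or_ge p 5 with hlt | h5
    · exfalso
      have : p = 2 ∨ p = 3 := by
        have := hp.two_le
        interval_cases p
        · left; rfl
        · right; rfl
        · exact absurd hp (by decide)
      rcases this with rfl | rfl
      · exact hc₄ (Pool.Agent.H92.ordinary_two hcard _ hdvd)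
      · exact hc₄ (Pool.Agent.H92.ordinary_three hcard _ hdvd)
    · exact h5
  obtain ⟨n, hn⟩ : ∃ n, p = 2 * n + 1 := by
    rcases hp.eq_two_or_odd' with h | h
    · omega
    · obtain ⟨n, hn⟩ := h; exact ⟨n, hn⟩
  have : CharP (IsLocalRing.ResidueField ℤ_[p]) p := charP_of_card_eq_prime hcard
  have hSS := Pool.Agent.H92.SS_eval_zero hp hcard hn h5 _ hdvd _ hres hc0 hc1
  -- the inverse of 1728 in `ℤ_p`
  have hu : ∃ u : ℤ_[p], (1728 : ℤ_[p]) * u = 1 := by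
    have h1 : IsUnit (1728 : ℤ_[p]) := by
      by_contra h
      have h2 : IsLocalRing.residue ℤ_[p] 1728 = 0 :=
        (IsLocalRing.residue_eq_zero_iff _).mpr ((IsLocalRing.mem_maximalIdeal _).mpr h)
      rw [map_ofNat] at h2
      have h3 : (1728 : IsLocalRing.ResidueField ℤ_[p]) = 2 ^ 6 * 3 ^ 3 := by norm_num
      rw [h3] at h2
      exact (mul_ne_zero (pow_ne_zero _ (Pool.Agent.H92.two_ne_zero' (p := p) h5))
        (pow_ne_zero _ (Pool.Agent.H92.three_ne_zero' (p := p) h5))) h2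
    exact h1.exists_right_inv
  obtain ⟨u, hu⟩ := hu
  have hT := Pool.Agent.H92.isT_tt hu
  have hmain := Pool.Agent.H92.main_congruence (IsLocalRing.residue ℤ_[p])
    residue_eq_zero_iff_dvd prime_p_int hcard h5 hn hT c hc0 hc1 hSS
  obtain ⟨y, hy⟩ := hmain
  rw [coeff_F]
  apply rat_of_padic (x := y)
  have hTQ : Pool.Agent.H92.IsT (Pool.Agent.H92.tt (1 / 1728 : ℚ)) :=
    Pool.Agent.H92.isT_tt (by norm_num)
  have h1 := Pool.Agent.H92.PP_eval_map (algebraMap ℚ ℚ_[p])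
    (Pool.Agent.H92.tt (1 / 1728 : ℚ)) p C.j
  have h2 := Pool.Agent.H92.PP_eval_map (algebraMap ℤ_[p] ℚ_[p]) (Pool.Agent.H92.tt u) p c
  have h3 : (Pool.Agent.H92.tt (1 / 1728 : ℚ)).map (algebraMap ℚ ℚ_[p]) =
      (Pool.Agent.H92.tt u).map (algebraMap ℤ_[p] ℚ_[p]) :=
    (hTQ.map _).unique (hT.map _)
  have h4 : algebraMap ℚ ℚ_[p] C.j = algebraMap ℤ_[p] ℚ_[p] c := by
    rw [eq_ratCast, ← hc]; rfl
  rw [h3, h4, ← h2, hy] at h1
  rw [eq_ratCast] at h1
  rw [h1]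
  simp

end Pool.Agent.H92.Supersingular
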